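import Pool.Agent.Run7.h161.KN.Core

set_option autoImplicit false

/-!
# Chains: the Euclidean algorithm acting on a line

`N (i + 1) = N i * E i ^ b i`, `E (i + 1) = E i * N (i + 1)`, and a second chain `N'`, `E'` with
`N' 0 = N 0` and `N' (n + 1) = N (n + 1)`, where `(E 0)⁻¹ * E' 0` has the roots `g`, `k`,
`(E n)⁻¹ * E' n` has the roots `h`, `l`, `N 0 = g ^ (-r₁) * k ^ r₃` and
`N (n + 1) = h ^ r₂ * l ^ (-r₄)`.
-/

namespace Run7.h161.KN

open Pool.Agent.Y479.LS Pool.Agent.Y479.LS.Aut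

/-- A chain. -/
structure Chain {G : Type*} [Group G] (b : ℕ → ℕ) (N E : ℕ → G) : Prop where
  N_succ : ∀ i, N (i + 1) = N i * E i ^ b i
  E_succ : ∀ i, E (i + 1) = E i * N (i + 1)

theorem Chain.map {G H : Type*} [Group G] [Group H] {b : ℕ → ℕ} {N E : ℕ → G}
    (hc : Chain b N E) (f : G →* H) : Chain b (fun i => f (N i)) (fun i => f (E i)) := by
  refine ⟨fun i => ?_, fun i => ?_⟩
  · simp only [hc.N_succ i, map_mul, map_pow]
  · simp only [hc.E_succ i, map_mul]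

/-- The chain that starts with `N₀`, `E₀`. -/
def chain {G : Type*} [Group G] (b : ℕ → ℕ) (N₀ E₀ : G) : ℕ → G × G
  | 0 => (N₀, E₀)
  | i + 1 => ((chain b N₀ E₀ i).1 * (chain b N₀ E₀ i).2 ^ b i,
      (chain b N₀ E₀ i).2 * ((chain b N₀ E₀ i).1 * (chain b N₀ E₀ i).2 ^ b i))

theorem chain_isChain {G : Type*} [Group G] (b : ℕ → ℕ) (N₀ E₀ : G) :
    Chain b (fun i => (chain b N₀ E₀ i).1) (fun i => (chain b N₀ E₀ i).2) :=
  ⟨fun _ => rfl, fun _ => rfl⟩

theorem chain_mem {G : Type*} [Group G] {K : Subgroup G} (b : ℕ → ℕ) {N₀ E₀ : G} (hN : N₀ ∈ K)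
    (hE : E₀ ∈ K) : ∀ i, (chain b N₀ E₀ i).1 ∈ K ∧ (chain b N₀ E₀ i).2 ∈ K := by
  intro i
  induction i with
  | zero => exact ⟨hN, hE⟩
  | succ i ih =>
    have h1 := K.mul_mem ih.1 (K.pow_mem ih.2 (b i))
    exact ⟨h1, K.mul_mem ih.2 h1⟩

section order
variable {X : Type*} [LinearOrder X]

theorem le_pow {f : Aut X} {x : X} (h : x ≤ f x) : ∀ n : ℕ, x ≤ (f ^ n) x := by
  intro n
  induction n with
  | zero => simp [one_apply]
  | succ n ih =>
    rw [pow_succ_apply]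
    exact h.trans ((le_iff f).mpr ih)

theorem pow_up {f : Aut X} {x : X} (h : x < f x) (n : ℕ) : (f ^ n) x < f ((f ^ n) x) := by
  rw [← pow_succ_apply, pow_succ, mul_apply]
  exact (lt_iff _).mpr h

theorem pow_le_pow_apply {f : Aut X} {x : X} (h : x ≤ f x) {m n : ℕ} (hmn : m ≤ n) :
    (f ^ m) x ≤ (f ^ n) x := by
  induction n, hmn using Nat.le_induction with
  | base => exact le_rfl
  | succ n _ ih =>
    refine ih.trans ?_
    rw [pow_succ, mul_apply]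
    exact (le_iff _).mpr h

theorem up_of_pow {f : Aut X} {x y : X} {n : ℕ} (h : x < (f ^ n) y) (hy : y ≤ x) : y < f y := by
  by_contra hc
  rw [not_lt] at hc
  exact absurd h (not_lt.mpr ((pow_le hc n).trans hy))

theorem up_of_pow' {f : Aut X} {x y : X} {n : ℕ} (h : x < (f ^ n) y) (hy : y ≤ x) : x < f x := by
  refine up_of_pow (n := n) (h.trans_le ((le_iff _).mpr hy)) le_rfl

variable {b : ℕ → ℕ} {N E N' E' : ℕ → Aut X}

theorem Chain.inv_apply (hc : Chain b N E) (i : ℕ) (t : X) :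
    (N i)⁻¹ t = (E i ^ b i) ((N (i + 1))⁻¹ t) := by
  rw [← mul_apply, hc.N_succ i, mul_inv_rev, mul_inv_cancel_left]

theorem Chain.E_apply (hc : Chain b N E) (i : ℕ) (t : X) :
    E i t = E (i + 1) ((N (i + 1))⁻¹ t) := by
  rw [← mul_apply, hc.E_succ i, mul_inv_cancel_right]

theorem Chain.moves_aux (hc : Chain b N E) {n : ℕ} {t : X} (ht : (N (n + 1))⁻¹ t ≤ t) :
    ∀ d j : ℕ, j + d = n →
      (t < (N (j + 1))⁻¹ t ∧ (N (j + 1))⁻¹ t < E j t ∧
        ∀ i, j < i → i ≤ n → (N (i + 1))⁻¹ t < E i ((N (i + 1))⁻¹ t)) ∨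
      ((N (j + 1))⁻¹ t ≤ t ∧
        (t < E j t → ∀ i, j < i → i ≤ n → (N (i + 1))⁻¹ t < E i ((N (i + 1))⁻¹ t))) := by
  intro d
  induction d with
  | zero =>
    intro j hj
    right
    obtain rfl : j = n := by omega
    exact ⟨ht, fun _ i h1 h2 => by omega⟩
  | succ d ih =>
    intro j hj
    have e1 : (N (j + 1))⁻¹ t = (E (j + 1) ^ b (j + 1)) ((N (j + 1 + 1))⁻¹ t) :=
      hc.inv_apply (j + 1) t
    have e2 : E j t = E (j + 1) ((N (j + 1))⁻¹ t) := hc.E_apply j t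
    have all : (N (j + 1 + 1))⁻¹ t < E (j + 1) ((N (j + 1 + 1))⁻¹ t) →
        (∀ i, j + 1 < i → i ≤ n → (N (i + 1))⁻¹ t < E i ((N (i + 1))⁻¹ t)) →
        ∀ i, j < i → i ≤ n → (N (i + 1))⁻¹ t < E i ((N (i + 1))⁻¹ t) := by
      intro h1 h2 i h3 h4
      rcases Nat.eq_or_lt_of_le (Nat.succ_le_of_lt h3) with h5 | h5
      · subst h5; exact h1
      · exact h2 i h5 h4
    rcases ih (j + 1) (by omega) with ⟨h1, h2, h3⟩ | ⟨h1, h2⟩
    · left
      have hA : (N (j + 1 + 1))⁻¹ t < E (j + 1) ((N (j + 1 + 1))⁻¹ t) :=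
        h2.trans ((lt_iff _).mpr h1)
      refine ⟨?_, ?_, all hA h3⟩
      · rw [e1]; exact h1.trans_le (le_pow hA.le _)
      · rw [e2, e1]; exact pow_up hA _
    · rcases lt_or_ge t ((N (j + 1))⁻¹ t) with h3 | h3
      · left
        have h4 := h3
        rw [e1] at h4
        have hA : (N (j + 1 + 1))⁻¹ t < E (j + 1) ((N (j + 1 + 1))⁻¹ t) := up_of_pow h4 h1
        refine ⟨h3, ?_, all hA (h2 (up_of_pow' h4 h1))⟩
        rw [e2, e1]; exact pow_up hA _
      · right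
        refine ⟨h3, fun h5 => ?_⟩
        have h4 := h5
        rw [e2, e1, ← pow_succ_apply] at h4
        exact all (up_of_pow h4 h1) (h2 (up_of_pow' h4 h1))

/-- If `N (n + 1)⁻¹` does not move `t` up and `E j` moves `t` up, then `E i` moves
`N (i + 1)⁻¹ t` up for all `i` between `j` and `n`. -/
theorem Chain.moves (hc : Chain b N E) {n j : ℕ} {t : X} (ht : (N (n + 1))⁻¹ t ≤ t) (hj : j ≤ n)
    (hE : t < E j t) : ∀ i, j < i → i ≤ n → (N (i + 1))⁻¹ t < E i ((N (i + 1))⁻¹ t) := by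
  rcases hc.moves_aux ht (n - j) j (by omega) with ⟨_, _, h⟩ | ⟨_, h⟩
  · exact h
  · exact h hE

theorem compare (hc : Chain b N E) (hc' : Chain b N' E') {n : ℕ} (hN : N' (n + 1) = N (n + 1))
    {x : X} (hx : ∀ i, 1 ≤ i → (N i)⁻¹ x ≤ x) (J : X → Prop)
    (J1 : ∀ t s, J t → (N (n + 1))⁻¹ t ≤ s → s ≤ x → J s)
    (J2 : ∀ t, J t → (N (n + 1))⁻¹ t ≤ t) (J3 : ∀ t, J t → t ≤ x → E n t < E' n t) :
    ∀ d j, j + d = n → ∀ t, J t → t ≤ x → t < E j t → E j t < E' j t := by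
  intro d
  induction d using Nat.strong_induction_on with
  | _ d ih =>
    intro j hj t hJ htx hE
    rcases Nat.eq_zero_or_pos d with rfl | hd
    · obtain rfl : j = n := by omega
      exact J3 t hJ htx
    have hP : ∀ i, j < i → i ≤ n → ∀ t, J t → t ≤ x → t < E i t → E i t < E' i t :=
      fun i h1 h2 => ih (n - i) (by omega) i (by omega)
    have hA := hc.moves (J2 t hJ) (by omega : j ≤ n) hE
    have htx' : ∀ i, 1 ≤ i → (N i)⁻¹ t ≤ x := fun i hi => ((le_iff _).mpr htx).trans (hx i hi)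
    have key : ∀ m i, i + m = n + 1 → j + 1 ≤ i →
        (N i)⁻¹ t ≤ (N' i)⁻¹ t ∧ (N (n + 1))⁻¹ t ≤ (N i)⁻¹ t := by
      intro m
      induction m with
      | zero =>
        intro i hi _
        obtain rfl : i = n + 1 := by omega
        rw [hN]
        exact ⟨le_rfl, le_rfl⟩
      | succ m ihm =>
        intro i hi hji
        obtain ⟨h1, h2⟩ := ihm (i + 1) (by omega) (by omega)
        have hAi := hA i (by omega) (by omega)
        have inner : ∀ l, l ≤ b i →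
            (E i ^ l) ((N (i + 1))⁻¹ t) ≤ (E' i ^ l) ((N' (i + 1))⁻¹ t) := by
          intro l
          induction l with
          | zero => intro _; rw [pow_zero, pow_zero, one_apply, one_apply]; exact h1
          | succ l ihl =>
            intro hl
            have h3 := ihl (by omega)
            rw [pow_succ_apply, pow_succ_apply]
            have h4 : (E i ^ l) ((N (i + 1))⁻¹ t) ≤ x := by
              refine (pow_le_pow_apply hAi.le (by omega : l ≤ b i)).trans ?_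
              rw [← hc.inv_apply]
              exact htx' i (by omega)
            have h5 : J ((E i ^ l) ((N (i + 1))⁻¹ t)) :=
              J1 t _ hJ (h2.trans (le_pow hAi.le l)) h4
            exact (hP i (by omega) (by omega) _ h5 h4 (pow_up hAi l)).le.trans
              ((le_iff _).mpr h3)
        refine ⟨?_, ?_⟩
        · rw [hc.inv_apply, hc'.inv_apply]
          exact inner _ le_rfl
        · rw [hc.inv_apply i]
          exact h2.trans (le_pow hAi.le _)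
    obtain ⟨h1, h2⟩ := key (n - j) (j + 1) (by omega) le_rfl
    have h3 : J ((N (j + 1))⁻¹ t) := J1 t _ hJ h2 (htx' _ (by omega))
    have h4 : (N (j + 1))⁻¹ t < E (j + 1) ((N (j + 1))⁻¹ t) := by
      rw [hc.inv_apply]
      exact pow_up (hA (j + 1) (by omega) (by omega)) _
    rw [hc.E_apply, hc'.E_apply]
    exact (hP (j + 1) (by omega) (by omega) _ h3 (htx' _ (by omega)) h4).trans_le
      ((le_iff _).mpr h1)

end order

/-- The relations. -/
structure Rels2 {G : Type*} [Group G] (n : ℕ) (b : ℕ → ℕ) (s₁ s₂ s₃ s₄ : ℕ) (r₁ r₂ r₃ r₄ : ℤ)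
    (N E N' E' : ℕ → G) (g h k l : G) : Prop where
  c : Chain b N E
  c' : Chain b N' E'
  start : N' 0 = N 0
  fin : N' (n + 1) = N (n + 1)
  u : (E 0)⁻¹ * E' 0 = g ^ s₁
  uk : (E 0)⁻¹ * E' 0 = k ^ s₃
  N₀ : N 0 = g ^ (-r₁) * k ^ r₃
  v : (E n)⁻¹ * E' n = h ^ s₂
  vl : (E n)⁻¹ * E' n = l ^ s₄
  Nn : N (n + 1) = h ^ r₂ * l ^ (-r₄)

theorem Rels2.map {G H : Type*} [Group G] [Group H] {n : ℕ} {b : ℕ → ℕ} {s₁ s₂ s₃ s₄ : ℕ}
    {r₁ r₂ r₃ r₄ : ℤ} {N E N' E' : ℕ → G} {g h k l : G}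
    (hR : Rels2 n b s₁ s₂ s₃ s₄ r₁ r₂ r₃ r₄ N E N' E' g h k l) (f : G →* H) :
    Rels2 n b s₁ s₂ s₃ s₄ r₁ r₂ r₃ r₄ (fun i => f (N i)) (fun i => f (E i)) (fun i => f (N' i))
      (fun i => f (E' i)) (f g) (f h) (f k) (f l) := by
  refine ⟨hR.c.map f, hR.c'.map f, ?_, ?_, ?_, ?_, ?_, ?_, ?_, ?_⟩
  · exact congrArg f hR.start
  · exact congrArg f hR.fin
  · simpa only [map_mul, map_pow, map_inv, map_zpow] using congrArg f hR.u
  · simpa only [map_mul, map_pow, map_inv, map_zpow] using congrArg f hR.uk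
  · simpa only [map_mul, map_pow, map_inv, map_zpow] using congrArg f hR.N₀
  · simpa only [map_mul, map_pow, map_inv, map_zpow] using congrArg f hR.v
  · simpa only [map_mul, map_pow, map_inv, map_zpow] using congrArg f hR.vl
  · simpa only [map_mul, map_pow, map_inv, map_zpow] using congrArg f hR.Nn

theorem Rels2.swap {G : Type*} [Group G] {n : ℕ} {b : ℕ → ℕ} {s₁ s₂ s₃ s₄ : ℕ}
    {r₁ r₂ r₃ r₄ : ℤ} {N E N' E' : ℕ → G} {g h k l : G}
    (hR : Rels2 n b s₁ s₂ s₃ s₄ r₁ r₂ r₃ r₄ N E N' E' g h k l) :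
    Rels2 n b s₁ s₂ s₃ s₄ (-r₁) (-r₂) (-r₃) (-r₄) N' E' N E g⁻¹ h⁻¹ k⁻¹ l⁻¹ := by
  refine ⟨hR.c', hR.c, hR.start.symm, hR.fin.symm, ?_, ?_, ?_, ?_, ?_, ?_⟩
  · rw [inv_pow, ← hR.u, mul_inv_rev, inv_inv]
  · rw [inv_pow, ← hR.uk, mul_inv_rev, inv_inv]
  · rw [hR.start, hR.N₀, inv_zpow', inv_zpow', neg_neg, neg_neg]
  · rw [inv_pow, ← hR.v, mul_inv_rev, inv_inv]
  · rw [inv_pow, ← hR.vl, mul_inv_rev, inv_inv]
  · rw [hR.fin, hR.Nn, inv_zpow', inv_zpow', neg_neg, neg_neg]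

section core
variable {X : Type*} [LinearOrder X] {n : ℕ} {b : ℕ → ℕ} {s₁ s₂ s₃ s₄ : ℕ}
  {r₁ r₂ r₃ r₄ : ℤ} {N E N' E' : ℕ → Aut X} {g h k l : Aut X}

theorem root_bound {p v : Aut X} {s : ℕ} (hs : 0 < s) (hp : v = p ^ s) {x : X} (hx : x < v x)
    (r : ℤ) : (p ^ r) x ≤ (v ^ r.natAbs) x := by
  have h1 : x < p x := by
    rw [hp] at hx
    exact up_of_pow hx le_rfl
  obtain ⟨m, rfl | rfl⟩ := Int.eq_nat_or_neg r
  · rw [zpow_natCast, Int.natAbs_natCast, hp, ← pow_mul]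
    exact pow_le_pow_apply h1.le (Nat.le_mul_of_pos_left m hs)
  · rw [zpow_neg, zpow_natCast]
    have h2 : ((p ^ m)⁻¹) x ≤ x := by
      rw [← le_iff (p ^ m), self_inv]
      exact le_pow h1.le m
    exact h2.trans (le_pow hx.le _)

theorem not_up_aux (hb : 0 < b 0) (hs₁ : 0 < s₁) (hs₂ : 0 < s₂) (hs₃ : 0 < s₃) (hs₄ : 0 < s₄)
    (hR : Rels2 n b s₁ s₂ s₃ s₄ r₁ r₂ r₃ r₄ N E N' E' g h k l) {x : X}
    (hu : ((E 0)⁻¹ * E' 0) x = x) (hx : x < E 0 x) (hv : x < ((E n)⁻¹ * E' n) x) : False := by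
  set v := (E n)⁻¹ * E' n with hvdef
  set W := N (n + 1) with hW
  have hvh : v = h ^ s₂ := hR.v
  have hvl : v = l ^ s₄ := hR.vl
  have hgx : g x = x := root_fix hs₁ (by rw [← hR.u]; exact hu)
  have hkx : k x = x := root_fix hs₃ (by rw [← hR.uk]; exact hu)
  have hN0 : N 0 x = x := by
    rw [hR.N₀, mul_apply, zpow_fix hkx, zpow_fix hgx]
  have hE' : E' 0 x = E 0 x := by
    have : E 0 (((E 0)⁻¹ * E' 0) x) = E' 0 x := by rw [mul_apply, self_inv]
    rw [← this, hu]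
  have hall : ∀ i, x < E i x ∧ x < N (i + 1) x := by
    intro i
    induction i with
    | zero =>
      refine ⟨hx, ?_⟩
      rw [hR.c.N_succ 0, mul_apply]
      calc x = N 0 x := hN0.symm
        _ < _ := (lt_iff _).mpr (lt_pow hx _ hb)
    | succ i ih =>
      have h1 : x < E (i + 1) x := by
        rw [hR.c.E_succ i, mul_apply]
        exact ih.1.trans ((lt_iff _).mpr ih.2)
      refine ⟨h1, ?_⟩
      rw [hR.c.N_succ (i + 1), mul_apply]
      exact ih.2.trans_le ((le_iff _).mpr (le_pow h1.le _))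
  have hNx : ∀ i, 1 ≤ i → (N i)⁻¹ x ≤ x := by
    intro i hi
    obtain ⟨j, rfl⟩ : ∃ j, i = j + 1 := ⟨i - 1, by omega⟩
    rw [← le_iff (N (j + 1)), self_inv]
    exact (hall j).2.le
  have hcomm : ∀ m : ℕ, v ^ m * W = W * v ^ m := by
    have h1 : Commute v h := by rw [hvh]; exact (Commute.refl h).pow_left s₂
    have h2 : Commute v l := by rw [hvl]; exact (Commute.refl l).pow_left s₄
    have h3 : Commute v W := by
      rw [hW, hR.Nn]
      exact (h1.zpow_right _).mul_right (h2.zpow_right _)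
    intro m
    exact (h3.pow_left m).eq
  have hWx : W x ≤ (v ^ (r₂.natAbs + (-r₄).natAbs)) x := by
    rw [hW, hR.Nn, mul_apply]
    have h1 : (l ^ (-r₄)) x ≤ (v ^ (-r₄).natAbs) x := root_bound hs₄ hR.vl hv _
    have h2 : (h ^ r₂) x ≤ (v ^ r₂.natAbs) x := root_bound hs₂ hR.v hv _
    have h3 : Commute v h := by rw [hvh]; exact (Commute.refl h).pow_left s₂
    calc (h ^ r₂) ((l ^ (-r₄)) x) ≤ (h ^ r₂) ((v ^ (-r₄).natAbs) x) := (le_iff _).mpr h1
      _ = (v ^ (-r₄).natAbs) ((h ^ r₂) x) := by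
        rw [← mul_apply, ← mul_apply, ((h3.pow_left (-r₄).natAbs).zpow_right r₂).eq]
      _ ≤ (v ^ (-r₄).natAbs) ((v ^ r₂.natAbs) x) := (le_iff _).mpr h2
      _ = (v ^ (r₂.natAbs + (-r₄).natAbs)) x := by
        rw [← mul_apply, ← pow_add, add_comm]
  set J : X → Prop := fun t => t ≤ x ∧ (∃ m : ℕ, x ≤ (v ^ m) t) ∧ ∀ s, t ≤ s → s ≤ x → s < W s
    with hJ
  have hv' : ∀ t, J t → t < v t := by
    rintro t ⟨h1, ⟨m, h2⟩, _⟩
    by_contra hc
    rw [not_lt] at hc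
    have h3 : t = x := le_antisymm h1 (h2.trans (pow_le hc m))
    rw [h3] at hc
    exact absurd hv (not_lt.mpr hc)
  have hfinal := compare hR.c hR.c' hR.fin hNx J ?_ ?_ ?_ n 0 (by omega) x ?_ le_rfl hx
  · rw [hE'] at hfinal
    exact lt_irrefl _ hfinal
  · rintro t s ⟨h1, ⟨m, h2⟩, h3⟩ h4 h5
    have h4' : t ≤ W s := by
      rw [← le_iff W⁻¹, inv_self]; exact h4
    refine ⟨h5, ⟨(r₂.natAbs + (-r₄).natAbs) + m, ?_⟩, ?_⟩
    · have h6 : x ≤ W ((v ^ m) s) := by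
        rw [← mul_apply, ← hcomm, mul_apply]
        exact h2.trans ((le_iff _).mpr h4')
      have h7 : W x ≤ (v ^ (r₂.natAbs + (-r₄).natAbs)) (W ((v ^ m) s)) :=
        hWx.trans ((le_iff _).mpr h6)
      rw [← mul_apply, hcomm, mul_apply, le_iff, ← mul_apply, ← pow_add] at h7
      exact h7
    · intro s' h6 h7
      rcases le_or_gt t s' with h8 | h8
      · exact h3 s' h8 h7
      · exact h8.trans_le (h4'.trans ((le_iff _).mpr h6))
  · rintro t ⟨h1, _, h3⟩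
    rw [← le_iff (N (n + 1)), self_inv]
    exact (h3 t le_rfl h1).le
  · intro t ht _
    have h1 := (lt_iff (E n)).mpr (hv' t ht)
    rw [hvdef, mul_apply, self_inv] at h1
    exact h1
  · refine ⟨le_rfl, ⟨0, ?_⟩, ?_⟩
    · rw [pow_zero, one_apply]
    · intro s h1 h2
      obtain rfl : s = x := le_antisymm h2 h1
      exact (hall n).2

/-- A fixed point `x` of `(E 0)⁻¹ * E' 0` is not moved up by `E 0`. -/
theorem not_up2 (hb : 0 < b 0) (hs₁ : 0 < s₁) (hs₂ : 0 < s₂) (hs₃ : 0 < s₃) (hs₄ : 0 < s₄)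
    (hR : Rels2 n b s₁ s₂ s₃ s₄ r₁ r₂ r₃ r₄ N E N' E' g h k l) {x : X}
    (hu : ((E 0)⁻¹ * E' 0) x = x) : ¬ x < E 0 x := by
  intro hx
  have hgx : g x = x := root_fix hs₁ (by rw [← hR.u]; exact hu)
  have hkx : k x = x := root_fix hs₃ (by rw [← hR.uk]; exact hu)
  have hN0 : N 0 x = x := by
    rw [hR.N₀, mul_apply, zpow_fix hkx, zpow_fix hgx]
  have hE' : E' 0 x = E 0 x := by
    have : E 0 (((E 0)⁻¹ * E' 0) x) = E' 0 x := by rw [mul_apply, self_inv]
    rw [← this, hu]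
  have hall : ∀ i, x < E i x ∧ x < N (i + 1) x := by
    intro i
    induction i with
    | zero =>
      refine ⟨hx, ?_⟩
      rw [hR.c.N_succ 0, mul_apply]
      calc x = N 0 x := hN0.symm
        _ < _ := (lt_iff _).mpr (lt_pow hx _ hb)
    | succ i ih =>
      have h1 : x < E (i + 1) x := by
        rw [hR.c.E_succ i, mul_apply]
        exact ih.1.trans ((lt_iff _).mpr ih.2)
      refine ⟨h1, ?_⟩
      rw [hR.c.N_succ (i + 1), mul_apply]
      exact ih.2.trans_le ((le_iff _).mpr (le_pow h1.le _))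
  rcases lt_trichotomy (((E n)⁻¹ * E' n) x) x with h1 | h1 | h1
  · refine not_up_aux hb hs₁ hs₂ hs₃ hs₄ hR.swap (x := x) ?_ ?_ ?_
    · rw [mul_apply, ← hE', inv_self]
    · rw [hE']; exact hx
    · have h2 : ((E' n)⁻¹ * E n) x = (((E n)⁻¹ * E' n)⁻¹) x := by
        rw [mul_inv_rev, inv_inv]
      rw [h2, ← lt_iff ((E n)⁻¹ * E' n), self_inv]
      exact h1
  · have h2 : h x = x := root_fix hs₂ (by rw [← hR.v]; exact h1)
    have h3 : l x = x := root_fix hs₄ (by rw [← hR.vl]; exact h1)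
    have h4 := (hall n).2
    rw [hR.Nn, mul_apply, zpow_fix h3, zpow_fix h2] at h4
    exact lt_irrefl _ h4
  · exact not_up_aux hb hs₁ hs₂ hs₃ hs₄ hR hu hx h1

/-- A fixed point of `(E 0)⁻¹ * E' 0` is a fixed point of `E 0`. -/
theorem fix_E (hb : 0 < b 0) (hs₁ : 0 < s₁) (hs₂ : 0 < s₂) (hs₃ : 0 < s₃) (hs₄ : 0 < s₄)
    (hR : Rels2 n b s₁ s₂ s₃ s₄ r₁ r₂ r₃ r₄ N E N' E' g h k l) {x : X}
    (hu : ((E 0)⁻¹ * E' 0) x = x) : E 0 x = x := by
  rcases lt_trichotomy (E 0 x) x with h1 | h1 | h1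
  · exfalso
    have h2 := hR.map Aut.dual
    refine not_up2 (X := Xᵒᵈ) hb hs₁ hs₂ hs₃ hs₄ h2 (x := OrderDual.toDual x) ?_ ?_
    · rw [← map_inv, ← map_mul, dual_apply, hu]
    · rw [dual_apply]; exact h1
  · exact h1
  · exact absurd h1 (not_up2 hb hs₁ hs₂ hs₃ hs₄ hR hu)

/-- `(E 0)⁻¹ * E' 0` does not move all points up. -/
theorem not_all2 (hb : 0 < b 0) (hR : Rels2 n b s₁ s₂ s₃ s₄ r₁ r₂ r₃ r₄ N E N' E' g h k l)
    [Nonempty X] (hu : ∀ x, x < ((E 0)⁻¹ * E' 0) x) : False := by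
  have hB : ∀ x, E 0 x < E' 0 x := by
    intro x
    have : E 0 (((E 0)⁻¹ * E' 0) x) = E' 0 x := by rw [mul_apply, self_inv]
    rw [← this, lt_iff]
    exact hu x
  have hall : ∀ i, (∀ x, E i x < E' i x) ∧ ∀ x, N (i + 1) x < N' (i + 1) x := by
    intro i
    induction i with
    | zero =>
      refine ⟨hB, fun x => ?_⟩
      rw [hR.c.N_succ 0, hR.c'.N_succ 0, hR.start, mul_apply, mul_apply, lt_iff]
      exact pow_mono_lt hB _ hb x
    | succ i ih =>
      have h1 : ∀ x, E (i + 1) x < E' (i + 1) x := by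
        intro x
        rw [hR.c.E_succ i, hR.c'.E_succ i, mul_apply, mul_apply]
        exact (ih.1 _).trans ((lt_iff _).mpr (ih.2 x))
      refine ⟨h1, fun x => ?_⟩
      rw [hR.c.N_succ (i + 1), hR.c'.N_succ (i + 1), mul_apply, mul_apply]
      exact (ih.2 _).trans_le ((le_iff _).mpr (pow_mono h1 _ x))
  obtain ⟨x⟩ := ‹Nonempty X›
  have h1 := (hall n).2 x
  rw [hR.fin] at h1
  exact lt_irrefl _ h1

end core

/-- Homomorphisms to left-orderable groups are trivial. -/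
theorem hom_triv2 {Γ : Type*} [Group Γ] {n : ℕ} {b : ℕ → ℕ} {s₁ s₂ s₃ s₄ : ℕ}
    {r₁ r₂ r₃ r₄ : ℤ} {N E N' E' : ℕ → Γ} {g h k l : Γ} (hb : 0 < b 0) (hs₁ : 0 < s₁)
    (hs₂ : 0 < s₂) (hs₃ : 0 < s₃) (hs₄ : 0 < s₄)
    (hR : Rels2 n b s₁ s₂ s₃ s₄ r₁ r₂ r₃ r₄ N E N' E' g h k l)
    (hgen : Subgroup.closure {E 0, E' 0, g, h, k, l} = ⊤)
    (H : Type) [Group H] (hH : LeftOrderable H) (f : Γ →* H) (γ : Γ) : f γ = 1 := by
  refine hom_trivial ((E 0)⁻¹ * E' 0) ?_ ?_ H hH f γ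
  · intro X _ φ x hx γ
    have hR' := hR.map φ
    rw [map_mul, map_inv] at hx
    have hB : φ (E 0) x = x := fix_E hb hs₁ hs₂ hs₃ hs₄ hR' hx
    have hB' : φ (E' 0) x = x := by
      have : φ (E 0) (((φ (E 0))⁻¹ * φ (E' 0)) x) = φ (E' 0) x := by rw [mul_apply, self_inv]
      rw [← this, hx, hB]
    have hg : φ g x = x := root_fix hs₁ (by rw [← hR'.u]; exact hx)
    have hk : φ k x = x := root_fix hs₃ (by rw [← hR'.uk]; exact hx)
    have hN : φ (N 0) x = x := by rw [hR'.N₀, mul_apply, zpow_fix hk, zpow_fix hg]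
    have hN' : φ (N' 0) x = x := by rw [hR.start]; exact hN
    have chain_fix : ∀ {P Q : ℕ → Γ}, Chain b P Q → φ (P 0) x = x → φ (Q 0) x = x →
        ∀ i, φ (P i) x = x ∧ φ (Q i) x = x := by
      intro P Q hc h1 h2 i
      induction i with
      | zero => exact ⟨h1, h2⟩
      | succ i ih =>
        have h3 : φ (P (i + 1)) x = x := by
          rw [hc.N_succ i, map_mul, map_pow, mul_apply, pow_fix ih.2, ih.1]
        refine ⟨h3, ?_⟩
        rw [hc.E_succ i, map_mul, mul_apply, h3, ih.2]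
    have hEn := (chain_fix hR.c hN hB n).2
    have hEn' := (chain_fix hR.c' hN' hB' n).2
    have hv : ((φ (E n))⁻¹ * φ (E' n)) x = x := by
      rw [mul_apply, hEn', inv_fix hEn]
    have hh : φ h x = x := root_fix hs₂ (by rw [← hR'.v]; exact hv)
    have hl : φ l x = x := root_fix hs₄ (by rw [← hR'.vl]; exact hv)
    have hγ : γ ∈ Subgroup.closure {E 0, E' 0, g, h, k, l} := by rw [hgen]; trivial
    induction hγ using Subgroup.closure_induction with
    | mem y hy =>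
      rcases hy with rfl | rfl | rfl | rfl | rfl | hy
      · exact hB
      · exact hB'
      · exact hg
      · exact hh
      · exact hk
      · rw [Set.mem_singleton_iff] at hy; rw [hy]; exact hl
    | one => rw [map_one, one_apply]
    | mul y z _ _ h5 h6 => rw [map_mul, mul_apply, h6, h5]
    | inv y _ h5 => rw [map_inv]; exact inv_fix h5
  · intro X _ _ φ hφ
    exact not_all2 hb (hR.map φ) (by simpa only [map_mul, map_inv] using hφ)

end Run7.h161.KN
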