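import Pool.Agent.Y479.LS.Aut

set_option autoImplicit false

/-!
# Two tangles of opposite sign joined by rational tangles on an axis: the inequalities

`B, B'` are order automorphisms of a linear order, `C = B M⁻¹ B ^ b`, `C' = B' M⁻¹ B' ^ b`,
`E = A⁻¹ C`, `E' = A⁻¹ C'`, with the relations `B⁻¹ B' = g ^ s₁`, `M ∈ ⟨g⟩`, `C⁻¹ C' = h ^ s₂`,
`B ^ b E ^ d = B' ^ b E' ^ d = M h ^ r`, and `A ∈ ⟨k⟩` for a root `k` of `B⁻¹ B'`.
-/

namespace Run7.h161.KN

open Pool.Agent.Y479.LS Pool.Agent.Y479.LS.Aut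

section pow
variable {X : Type*} [LinearOrder X]

theorem pow_succ_apply (f : Aut X) (n : ℕ) (x : X) : (f ^ (n + 1)) x = f ((f ^ n) x) := by
  rw [pow_succ', mul_apply]

theorem lt_pow {f : Aut X} {x : X} (h : x < f x) : ∀ n : ℕ, 0 < n → x < (f ^ n) x := by
  intro n hn
  induction n with
  | zero => exact absurd hn (lt_irrefl _)
  | succ n ih =>
    rw [pow_succ_apply]
    rcases Nat.eq_zero_or_pos n with rfl | h1
    · rw [pow_zero, one_apply]; exact h
    · exact h.trans ((lt_iff f).mpr (ih h1))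

theorem pow_lt {f : Aut X} {x : X} (h : f x < x) : ∀ n : ℕ, 0 < n → (f ^ n) x < x := by
  intro n hn
  induction n with
  | zero => exact absurd hn (lt_irrefl _)
  | succ n ih =>
    rw [pow_succ_apply]
    rcases Nat.eq_zero_or_pos n with rfl | h1
    · rw [pow_zero, one_apply]; exact h
    · exact ((lt_iff f).mpr (ih h1)).trans h

theorem pow_le {f : Aut X} {x : X} (h : f x ≤ x) : ∀ n : ℕ, (f ^ n) x ≤ x := by
  intro n
  induction n with
  | zero => simp [one_apply]
  | succ n ih =>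
    rw [pow_succ_apply]
    exact ((le_iff f).mpr ih).trans h

theorem pow_fix {f : Aut X} {x : X} (h : f x = x) (n : ℕ) : (f ^ n) x = x := by
  induction n with
  | zero => simp [one_apply]
  | succ n ih => rw [pow_succ_apply, ih, h]

theorem inv_fix {f : Aut X} {x : X} (h : f x = x) : f⁻¹ x = x := by
  rw [← inj f, self_inv, h]

theorem zpow_fix {f : Aut X} {x : X} (h : f x = x) (n : ℤ) : (f ^ n) x = x := by
  obtain ⟨n, rfl | rfl⟩ := Int.eq_nat_or_neg n
  · rw [zpow_natCast]; exact pow_fix h n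
  · rw [zpow_neg, zpow_natCast]; exact inv_fix (pow_fix h n)

/-- a fixed point of a power is a fixed point -/
theorem root_fix {f : Aut X} {x : X} {n : ℕ} (hn : 0 < n) (h : (f ^ n) x = x) : f x = x := by
  rcases lt_trichotomy (f x) x with h1 | h1 | h1
  · exact absurd h (pow_lt h1 n hn).ne
  · exact h1
  · exact absurd h (lt_pow h1 n hn).ne'

theorem pow_mono {f g : Aut X} (h : ∀ x, f x < g x) : ∀ (n : ℕ) (x : X), (f ^ n) x ≤ (g ^ n) x := by
  intro n
  induction n with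
  | zero => intro x; simp
  | succ n ih =>
    intro x
    rw [pow_succ_apply, pow_succ_apply]
    exact ((le_iff f).mpr (ih x)).trans (h _).le

theorem pow_mono_lt {f g : Aut X} (h : ∀ x, f x < g x) (n : ℕ) (hn : 0 < n) (x : X) :
    (f ^ n) x < (g ^ n) x := by
  obtain ⟨m, rfl⟩ : ∃ m, n = m + 1 := ⟨n - 1, by omega⟩
  rw [pow_succ_apply, pow_succ_apply]
  exact lt_of_lt_of_le (h _) ((le_iff g).mpr (pow_mono h m x))

end pow

/-- The relations. -/
structure Rels {G : Type*} [Group G] (b d s₁ s₂ s₃ : ℕ) (r₁ r₂ r₃ : ℤ) (B B' A M g h k : G) :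
    Prop where
  u : B⁻¹ * B' = g ^ s₁
  m : M = g ^ r₁
  v : (B * M⁻¹ * B ^ b)⁻¹ * (B' * M⁻¹ * B' ^ b) = h ^ s₂
  one : B ^ b * (A⁻¹ * (B * M⁻¹ * B ^ b)) ^ d = B' ^ b * (A⁻¹ * (B' * M⁻¹ * B' ^ b)) ^ d
  two : B ^ b * (A⁻¹ * (B * M⁻¹ * B ^ b)) ^ d = M * h ^ r₂
  fix : A = 1 ∨ (B⁻¹ * B' = k ^ s₃ ∧ A = k ^ r₃)

theorem Rels.map {G H : Type*} [Group G] [Group H] {b d s₁ s₂ s₃ : ℕ} {r₁ r₂ r₃ : ℤ}
    {B B' A M g h k : G} (hR : Rels b d s₁ s₂ s₃ r₁ r₂ r₃ B B' A M g h k) (f : G →* H) :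
    Rels b d s₁ s₂ s₃ r₁ r₂ r₃ (f B) (f B') (f A) (f M) (f g) (f h) (f k) := by
  obtain ⟨h1, h2, h3, h4, h5, h6⟩ := hR
  refine ⟨?_, ?_, ?_, ?_, ?_, ?_⟩
  · simpa only [map_mul, map_pow, map_inv, map_zpow] using congrArg f h1
  · simpa only [map_mul, map_pow, map_inv, map_zpow] using congrArg f h2
  · simpa only [map_mul, map_pow, map_inv, map_zpow] using congrArg f h3
  · simpa only [map_mul, map_pow, map_inv, map_zpow] using congrArg f h4
  · simpa only [map_mul, map_pow, map_inv, map_zpow] using congrArg f h5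
  · rcases h6 with h6 | ⟨h6, h7⟩
    · left; rw [h6, map_one]
    · right
      refine ⟨?_, ?_⟩
      · simpa only [map_mul, map_pow, map_inv, map_zpow] using congrArg f h6
      · simpa only [map_mul, map_pow, map_inv, map_zpow] using congrArg f h7

section core
variable {X : Type*} [LinearOrder X] {b d s₁ s₂ s₃ : ℕ} {r₁ r₂ r₃ : ℤ} {B B' A M g h k : Aut X}

/-- A chain: if `E` is pointwise smaller than `E'` on `[z, x)`, which contains `z, E z, …, E^d z`,
then `E^(d+1) z < E'^(d+1) z`. -/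
theorem chain_lt {E E' : Aut X} {z x : X} (hlt : ∀ w, z ≤ w → w < x → E w < E' w) (n : ℕ)
    (hin : ∀ i, i ≤ n → z ≤ (E ^ i) z ∧ (E ^ i) z < x) : (E ^ (n + 1)) z < (E' ^ (n + 1)) z := by
  induction n with
  | zero =>
    have := hin 0 le_rfl
    simp only [pow_zero, one_apply] at this
    rw [zero_add, pow_one, pow_one]
    exact hlt z this.1 this.2
  | succ n ih =>
    have h1 := ih fun i hi => hin i (hi.trans (Nat.le_succ n))
    have h2 := hin (n + 1) le_rfl
    rw [pow_succ_apply E (n + 1), pow_succ_apply E' (n + 1)]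
    exact (hlt _ h2.1 h2.2).trans ((lt_iff E').mpr h1)

theorem chain_gt {E E' : Aut X} {z x : X} (hlt : ∀ w, z ≤ w → w < x → E' w < E w) (n : ℕ)
    (hin : ∀ i, i ≤ n → z ≤ (E ^ i) z ∧ (E ^ i) z < x) : (E' ^ (n + 1)) z < (E ^ (n + 1)) z := by
  induction n with
  | zero =>
    have := hin 0 le_rfl
    simp only [pow_zero, one_apply] at this
    rw [zero_add, pow_one, pow_one]
    exact hlt z this.1 this.2
  | succ n ih =>
    have h1 := ih fun i hi => hin i (hi.trans (Nat.le_succ n))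
    have h2 := hin (n + 1) le_rfl
    rw [pow_succ_apply E (n + 1), pow_succ_apply E' (n + 1)]
    exact ((lt_iff E').mpr h1).trans (hlt _ h2.1 h2.2)

/-- A fixed point `x` of `B⁻¹ B'` is not moved up by `B`. -/
theorem not_up (hb : 0 < b) (hs₁ : 0 < s₁) (hs₂ : 0 < s₂) (hs₃ : 0 < s₃)
    (hR : Rels b d s₁ s₂ s₃ r₁ r₂ r₃ B B' A M g h k) {x : X}
    (hu : (B⁻¹ * B') x = x) : ¬ x < B x := by
  intro hx
  obtain ⟨hgu, hgM, hv, h1, h2, h3⟩ := hR
  have hgx : g x = x := root_fix hs₁ (by rw [← hgu]; exact hu)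
  have hMx : M⁻¹ x = x := inv_fix (by rw [hgM]; exact zpow_fix hgx r₁)
  have hAx : A⁻¹ x = x := by
    rcases h3 with h3 | ⟨h3, h4⟩
    · rw [h3, inv_one, one_apply]
    · rw [h4]
      exact inv_fix (zpow_fix (root_fix hs₃ (by rw [← h3]; exact hu)) r₃)
  have hB' : B' x = B x := by
    have : B ((B⁻¹ * B') x) = B' x := by rw [mul_apply, self_inv]
    rw [← this, hu]
  set F := B ^ b with hF
  set F' := B' ^ b with hF'
  set C := B * M⁻¹ * F with hC
  set C' := B' * M⁻¹ * F' with hC'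
  set E := A⁻¹ * C with hE
  set E' := A⁻¹ * C' with hE'
  have hxF : x < F x := lt_pow hx b hb
  set Y := F⁻¹ x with hY
  set Y' := F'⁻¹ x with hY'
  have hFY : F Y = x := self_inv F x
  have hFY' : F' Y' = x := self_inv F' x
  have hYx : Y < x := by
    rw [← lt_iff F, hFY]; exact hxF
  have hEY : E Y = A⁻¹ (B x) := by
    rw [hE, hC, mul_apply, mul_apply, mul_apply, hFY, hMx]
  have hEY' : E' Y' = A⁻¹ (B x) := by
    rw [hE', hC', mul_apply, mul_apply, mul_apply, hFY', hMx, hB']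
  have hup : x < E Y := by
    rw [hEY]
    have := (lt_iff A⁻¹).mpr hx
    rwa [hAx] at this
  set Z := (F * E ^ d)⁻¹ x with hZ
  have hFZ : F ((E ^ d) Z) = x := by
    rw [← mul_apply, hZ, self_inv]
  have hFZ' : F' ((E' ^ d) Z) = x := by
    rw [← mul_apply, hZ, h1, self_inv]
  have hEZ : (E ^ d) Z = Y := by rw [← inj F, hFZ, hFY]
  have hEZ' : (E' ^ d) Z = Y' := by rw [← inj F', hFZ', hFY']
  have hlast : (E ^ (d + 1)) Z = (E' ^ (d + 1)) Z := by
    rw [pow_succ_apply, pow_succ_apply, hEZ, hEZ', hEY, hEY']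
  have hZE : Z < E Z := by
    by_contra hc
    rw [not_lt] at hc
    have h4 := (le_iff (E ^ d)).mpr hc
    rw [hEZ, ← mul_apply, ← pow_succ, pow_succ_apply, hEZ] at h4
    exact absurd (hYx.trans hup) (not_lt.mpr h4)
  have hmono : ∀ i j, i ≤ j → (E ^ i) Z ≤ (E ^ j) Z := by
    intro i j hij
    induction j, hij using Nat.le_induction with
    | base => exact le_rfl
    | succ j _ ih =>
      refine ih.trans ?_
      rw [pow_succ, mul_apply]
      exact (le_iff _).mpr hZE.le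
  have hin : ∀ i, i ≤ d → Z ≤ (E ^ i) Z ∧ (E ^ i) Z < x := by
    intro i hi
    refine ⟨?_, ?_⟩
    · have := hmono 0 i (Nat.zero_le _)
      simpa only [pow_zero, one_apply] using this
    · have := hmono i d hi
      rw [hEZ] at this
      exact lt_of_le_of_lt this hYx
  have hZx : Z < x := by
    have := (hin 0 (Nat.zero_le _)).2
    simpa only [pow_zero, one_apply] using this
  have hq : (h ^ r₂) Z = x := by
    have h4 : M ((h ^ r₂) Z) = x := by
      rw [← mul_apply, ← h2, hZ, self_inv]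
    have h5 : M⁻¹ (M ((h ^ r₂) Z)) = M⁻¹ x := by rw [h4]
    rw [inv_self, hMx] at h5
    exact h5
  obtain ⟨n, rfl | rfl⟩ := Int.eq_nat_or_neg r₂
  · rw [zpow_natCast] at hq
    have hlt : ∀ w, Z ≤ w → w < x → E w < E' w := by
      intro w hw1 hw2
      by_contra hc
      rw [not_lt] at hc
      have h4 : (C⁻¹ * C') w ≤ w := by
        rw [inv_mul_le]
        have hc' : A⁻¹ (C' w) ≤ A⁻¹ (C w) := hc
        rwa [le_iff] at hc'
      have h4' : h w ≤ w := by
        by_contra h5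
        rw [not_le] at h5
        rw [hv] at h4
        exact absurd (lt_pow h5 s₂ hs₂) (not_lt.mpr h4)
      have h5 := pow_le h4' n
      have h6 := (le_iff (h ^ n)).mpr hw1
      rw [hq] at h6
      exact absurd hw2 (not_lt.mpr (h6.trans h5))
    exact absurd (chain_lt hlt d hin) (not_lt.mpr hlast.ge)
  · rw [zpow_neg, zpow_natCast, ← inv_pow] at hq
    have hlt : ∀ w, Z ≤ w → w < x → E' w < E w := by
      intro w hw1 hw2
      by_contra hc
      rw [not_lt] at hc
      have h4 : w ≤ (C⁻¹ * C') w := by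
        rw [le_inv_mul]
        have hc' : A⁻¹ (C w) ≤ A⁻¹ (C' w) := hc
        rwa [le_iff] at hc'
      have h4' : h⁻¹ w ≤ w := by
        by_contra h5
        rw [not_le] at h5
        rw [hv] at h4
        have h6 : h w < w := by
          rw [← lt_iff h⁻¹, inv_self]; exact h5
        exact absurd (pow_lt h6 s₂ hs₂) (not_lt.mpr h4)
      have h5 := pow_le h4' n
      have h6 := (le_iff (h⁻¹ ^ n)).mpr hw1
      rw [hq] at h6
      exact absurd hw2 (not_lt.mpr (h6.trans h5))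
    exact absurd (chain_gt hlt d hin) (not_lt.mpr hlast.le)

/-- A fixed point of `B⁻¹ B'` is a fixed point of `B`. -/
theorem fix_B (hb : 0 < b) (hs₁ : 0 < s₁) (hs₂ : 0 < s₂) (hs₃ : 0 < s₃)
    (hR : Rels b d s₁ s₂ s₃ r₁ r₂ r₃ B B' A M g h k) {x : X} (hu : (B⁻¹ * B') x = x) :
    B x = x := by
  rcases lt_trichotomy (B x) x with h1 | h1 | h1
  · exfalso
    have h2 := hR.map Aut.dual
    refine not_up (X := Xᵒᵈ) hb hs₁ hs₂ hs₃ h2 (x := OrderDual.toDual x) ?_ ?_
    · rw [← map_inv, ← map_mul, dual_apply, hu]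
    · rw [dual_apply]; exact h1
  · exact h1
  · exact absurd h1 (not_up hb hs₁ hs₂ hs₃ hR hu)

/-- `B⁻¹ B'` does not move all points up. -/
theorem not_all (hb : 0 < b) (hR : Rels b d s₁ s₂ s₃ r₁ r₂ r₃ B B' A M g h k) [Nonempty X]
    (hu : ∀ x, x < (B⁻¹ * B') x) : False := by
  have h1 := hR.one
  have hB : ∀ x, B x < B' x := by
    intro x
    have : B ((B⁻¹ * B') x) = B' x := by rw [mul_apply, self_inv]
    rw [← this, lt_iff]
    exact hu x
  have hC : ∀ x, (B * M⁻¹ * B ^ b) x < (B' * M⁻¹ * B' ^ b) x := by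
    intro x
    rw [mul_apply, mul_apply, mul_apply, mul_apply]
    exact lt_of_lt_of_le (hB _) ((le_iff B').mpr ((le_iff M⁻¹).mpr (pow_mono hB b x)))
  have hE : ∀ x, (A⁻¹ * (B * M⁻¹ * B ^ b)) x < (A⁻¹ * (B' * M⁻¹ * B' ^ b)) x := by
    intro x
    exact (lt_iff A⁻¹).mpr (hC x)
  obtain ⟨x⟩ := ‹Nonempty X›
  have h2 : (B ^ b) (((A⁻¹ * (B * M⁻¹ * B ^ b)) ^ d) x) =
      (B' ^ b) (((A⁻¹ * (B' * M⁻¹ * B' ^ b)) ^ d) x) := by
    rw [← mul_apply, h1, mul_apply]
  have h3 := pow_mono hE d x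
  have h4 := pow_mono_lt hB b hb (((A⁻¹ * (B * M⁻¹ * B ^ b)) ^ d) x)
  exact absurd h2 (ne_of_lt (lt_of_lt_of_le h4 ((le_iff (B' ^ b)).mpr h3)))

end core

/-- Homomorphisms to left-orderable groups are trivial. -/
theorem hom_triv {Γ : Type*} [Group Γ] {b d s₁ s₂ s₃ : ℕ} {r₁ r₂ r₃ : ℤ} (hb : 0 < b)
    (hs₁ : 0 < s₁) (hs₂ : 0 < s₂) (hs₃ : 0 < s₃) {B B' A M g h k : Γ}
    (hR : Rels b d s₁ s₂ s₃ r₁ r₂ r₃ B B' A M g h k)
    (hk : k ^ s₃ ∈ Subgroup.closure {B, B'})
    (hgen : Subgroup.closure {B, B', g, h, k} = ⊤)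
    (H : Type) [Group H] (hH : LeftOrderable H) (f : Γ →* H) (γ : Γ) : f γ = 1 := by
  refine hom_trivial (B⁻¹ * B') ?_ ?_ H hH f γ
  · intro X _ φ x hx γ
    have hR' := hR.map φ
    rw [map_mul, map_inv] at hx
    have hB : φ B x = x := fix_B hb hs₁ hs₂ hs₃ hR' hx
    have hB' : φ B' x = x := by
      have : φ B (((φ B)⁻¹ * φ B') x) = φ B' x := by rw [mul_apply, self_inv]
      rw [← this, hx, hB]
    have hg : φ g x = x := root_fix hs₁ (by rw [← hR'.u]; exact hx)
    have hM : φ M x = x := by rw [hR'.m]; exact zpow_fix hg r₁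
    have hh : φ h x = x := by
      refine root_fix hs₂ ?_
      rw [← hR'.v]
      have e1 : (φ B * (φ M)⁻¹ * φ B ^ b) x = x := by
        rw [mul_apply, mul_apply, pow_fix hB, inv_fix hM, hB]
      have e2 : (φ B' * (φ M)⁻¹ * φ B' ^ b) x = x := by
        rw [mul_apply, mul_apply, pow_fix hB', inv_fix hM, hB']
      rw [mul_apply, e2, inv_fix e1]
    have hcl : ∀ S : Set Γ, (∀ y ∈ S, φ y x = x) → ∀ z ∈ Subgroup.closure S, φ z x = x := by
      intro S hS z hz
      induction hz using Subgroup.closure_induction with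
      | mem y hy => exact hS y hy
      | one => rw [map_one, one_apply]
      | mul y z _ _ h5 h6 => rw [map_mul, mul_apply, h6, h5]
      | inv y _ h5 => rw [map_inv]; exact inv_fix h5
    have hkx : φ k x = x := by
      refine root_fix hs₃ ?_
      rw [← map_pow]
      refine hcl _ ?_ _ hk
      rintro y (rfl | hy)
      · exact hB
      · rw [Set.mem_singleton_iff] at hy; rw [hy]; exact hB'
    refine hcl {B, B', g, h, k} ?_ γ (by rw [hgen]; trivial)
    rintro y (rfl | rfl | rfl | rfl | hy)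
    · exact hB
    · exact hB'
    · exact hg
    · exact hh
    · rw [Set.mem_singleton_iff] at hy; rw [hy]; exact hkx
  · intro X _ _ φ hφ
    exact not_all hb (hR.map φ) (by simpa only [map_mul, map_inv] using hφ)

end Run7.h161.KN
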