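import Pool.Agent.Run7.h161.KN.Chain

set_option autoImplicit false

/-!
# Two chains with one open start

`Ends`: the chains `N, E` and `N', E'` with `N' 0 = N 0`, and the relations of the rational tangles
at the end.  Nothing is assumed about the start `(E 0)⁻¹ * E' 0`, `N 0`.
-/

namespace Run7.h161.KN

open Pool.Agent.Y479.LS Pool.Agent.Y479.LS.Aut

/-- Two chains with the same start `N 0` and the relations of the end. -/
structure Ends {G : Type*} [Group G] (n : ℕ) (b : ℕ → ℕ) (s₂ s₄ : ℕ) (r₂ r₄ : ℤ)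
    (N E N' E' : ℕ → G) (h l : G) : Prop where
  c : Chain b N E
  c' : Chain b N' E'
  start : N' 0 = N 0
  fin : N' (n + 1) = N (n + 1)
  v : (E n)⁻¹ * E' n = h ^ s₂
  vl : (E n)⁻¹ * E' n = l ^ s₄
  Nn : N (n + 1) = h ^ r₂ * l ^ (-r₄)

theorem Ends.map {G H : Type*} [Group G] [Group H] {n : ℕ} {b : ℕ → ℕ} {s₂ s₄ : ℕ} {r₂ r₄ : ℤ}
    {N E N' E' : ℕ → G} {h l : G} (hR : Ends n b s₂ s₄ r₂ r₄ N E N' E' h l) (f : G →* H) :
    Ends n b s₂ s₄ r₂ r₄ (fun i => f (N i)) (fun i => f (E i)) (fun i => f (N' i))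
      (fun i => f (E' i)) (f h) (f l) := by
  refine ⟨hR.c.map f, hR.c'.map f, congrArg f hR.start, congrArg f hR.fin, ?_, ?_, ?_⟩
  · simpa only [map_mul, map_pow, map_inv, map_zpow] using congrArg f hR.v
  · simpa only [map_mul, map_pow, map_inv, map_zpow] using congrArg f hR.vl
  · simpa only [map_mul, map_pow, map_inv, map_zpow] using congrArg f hR.Nn

theorem Ends.swap {G : Type*} [Group G] {n : ℕ} {b : ℕ → ℕ} {s₂ s₄ : ℕ} {r₂ r₄ : ℤ}
    {N E N' E' : ℕ → G} {h l : G} (hR : Ends n b s₂ s₄ r₂ r₄ N E N' E' h l) :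
    Ends n b s₂ s₄ (-r₂) (-r₄) N' E' N E h⁻¹ l⁻¹ := by
  refine ⟨hR.c', hR.c, hR.start.symm, hR.fin.symm, ?_, ?_, ?_⟩
  · rw [inv_pow, ← hR.v, mul_inv_rev, inv_inv]
  · rw [inv_pow, ← hR.vl, mul_inv_rev, inv_inv]
  · rw [hR.fin, hR.Nn, inv_zpow', inv_zpow', neg_neg, neg_neg]

/-- The commutator of `N i` and `E i` does not depend on `i`. -/
theorem Chain.comm {G : Type*} [Group G] {b : ℕ → ℕ} {N E : ℕ → G} (hc : Chain b N E) :
    ∀ i, N i * E i * (N i)⁻¹ * (E i)⁻¹ = N 0 * E 0 * (N 0)⁻¹ * (E 0)⁻¹ := by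
  intro i
  induction i with
  | zero => rfl
  | succ i ih =>
    rw [← ih, hc.E_succ i, hc.N_succ i]
    generalize N i = x
    generalize E i = y
    generalize hz : y ^ b i = z
    have h1 : y * z = z * y := by rw [← hz, ← pow_succ, ← pow_succ']
    have h2 : z * y * z⁻¹ = y := by rw [← h1, mul_inv_cancel_right]
    calc x * z * (y * (x * z)) * (x * z)⁻¹ * (y * (x * z))⁻¹
        = x * (z * y * z⁻¹) * x⁻¹ * y⁻¹ := by group
      _ = x * y * x⁻¹ * y⁻¹ := by rw [h2]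

theorem Chain.comm' {G : Type*} [Group G] {b : ℕ → ℕ} {N E : ℕ → G} (hc : Chain b N E) (i : ℕ) :
    N (i + 1) * E i * (N (i + 1))⁻¹ * (E i)⁻¹ = N 0 * E 0 * (N 0)⁻¹ * (E 0)⁻¹ := by
  rw [← hc.comm i, hc.N_succ i]
  generalize N i = x
  generalize E i = y
  generalize hz : y ^ b i = z
  have h1 : y * z = z * y := by rw [← hz, ← pow_succ, ← pow_succ']
  have h2 : z * y * z⁻¹ = y := by rw [← h1, mul_inv_cancel_right]
  calc x * z * y * (x * z)⁻¹ * y⁻¹ = x * (z * y * z⁻¹) * x⁻¹ * y⁻¹ := by group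
    _ = x * y * x⁻¹ * y⁻¹ := by rw [h2]

/-- The boundary torus of the open tangle ball: `(E 0)⁻¹ * E' 0` commutes with `N 0`. -/
theorem Ends.commute {G : Type*} [Group G] {n : ℕ} {b : ℕ → ℕ} {s₂ s₄ : ℕ} {r₂ r₄ : ℤ}
    {N E N' E' : ℕ → G} {h l : G} (hR : Ends n b s₂ s₄ r₂ r₄ N E N' E' h l) :
    Commute ((E 0)⁻¹ * E' 0) (N 0) := by
  have hv1 : Commute ((E n)⁻¹ * E' n) h := by rw [hR.v]; exact (Commute.refl h).pow_left s₂
  have hv2 : Commute ((E n)⁻¹ * E' n) l := by rw [hR.vl]; exact (Commute.refl l).pow_left s₄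
  have hv : Commute ((E n)⁻¹ * E' n) (N (n + 1)) := by
    rw [hR.Nn]; exact (hv1.zpow_right _).mul_right (hv2.zpow_right _)
  have h1 := hR.c.comm' n
  have h2 := hR.c'.comm' n
  rw [hR.fin, hR.start] at h2
  have h3 : N (n + 1) * E n * (N (n + 1))⁻¹ * (E n)⁻¹ =
      N (n + 1) * E' n * (N (n + 1))⁻¹ * (E' n)⁻¹ := by
    have h4 : E' n = E n * ((E n)⁻¹ * E' n) := by rw [mul_inv_cancel_left]
    have h5 := hv.eq
    generalize (E n)⁻¹ * E' n = w at h4 h5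
    rw [h4]
    generalize N (n + 1) = z at h5
    generalize E n = y
    have h6 : w * z⁻¹ * w⁻¹ = z⁻¹ := by
      rw [mul_inv_eq_iff_eq_mul]
      have : z * w = w * z := h5.symm
      calc w * z⁻¹ = z⁻¹ * (z * w) * z⁻¹ := by group
        _ = z⁻¹ * w := by rw [this]; group
    calc z * y * z⁻¹ * y⁻¹ = z * y * (w * z⁻¹ * w⁻¹) * y⁻¹ := by rw [h6]
      _ = z * (y * w) * z⁻¹ * (y * w)⁻¹ := by group
  rw [h1, h2] at h3
  have h4 : E' 0 = E 0 * ((E 0)⁻¹ * E' 0) := by rw [mul_inv_cancel_left]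
  generalize (E 0)⁻¹ * E' 0 = w at h4 ⊢
  rw [h4] at h3
  generalize N 0 = z at h3 ⊢
  generalize E 0 = y at h3
  have h5 : z⁻¹ = w * z⁻¹ * w⁻¹ := by
    have h6 : z * y * z⁻¹ * y⁻¹ = z * y * (w * z⁻¹ * w⁻¹) * y⁻¹ := by
      rw [h3]; group
    exact mul_left_cancel (mul_right_cancel h6)
  have h7 : z⁻¹ * w = w * z⁻¹ := by
    calc z⁻¹ * w = (w * z⁻¹ * w⁻¹) * w := by rw [← h5]
      _ = w * z⁻¹ := by group
  show w * z = z * w
  calc w * z = z * (z⁻¹ * w) * z := by group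
    _ = z * w := by rw [h7]; group

section core
variable {X : Type*} [LinearOrder X] {n : ℕ} {b : ℕ → ℕ} {s₂ s₄ : ℕ} {r₂ r₄ : ℤ}
  {N E N' E' : ℕ → Aut X} {h l : Aut X}

theorem Chain.all_up (hc : Chain b N E) (hb : 0 < b 0) {x : X} (hN0 : N 0 x = x)
    (hx : x < E 0 x) : ∀ i, x < E i x ∧ x < N (i + 1) x := by
  intro i
  induction i with
  | zero =>
    refine ⟨hx, ?_⟩
    rw [hc.N_succ 0, mul_apply]
    calc x = N 0 x := hN0.symm
      _ < _ := (lt_iff _).mpr (lt_pow hx _ hb)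
  | succ i ih =>
    have h1 : x < E (i + 1) x := by
      rw [hc.E_succ i, mul_apply]
      exact ih.1.trans ((lt_iff _).mpr ih.2)
    refine ⟨h1, ?_⟩
    rw [hc.N_succ (i + 1), mul_apply]
    exact ih.2.trans_le ((le_iff _).mpr (le_pow h1.le _))

theorem Ends.not_up_aux (hb : 0 < b 0) (hs₂ : 0 < s₂) (hs₄ : 0 < s₄)
    (hR : Ends n b s₂ s₄ r₂ r₄ N E N' E' h l) {x : X} (hN0 : N 0 x = x)
    (hE' : E' 0 x = E 0 x) (hx : x < E 0 x) (hv : x < ((E n)⁻¹ * E' n) x) : False := by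
  set v := (E n)⁻¹ * E' n with hvdef
  set W := N (n + 1) with hW
  have hvh : v = h ^ s₂ := hR.v
  have hvl : v = l ^ s₄ := hR.vl
  have hall := hR.c.all_up hb hN0 hx
  have hNx : ∀ i, 1 ≤ i → (N i)⁻¹ x ≤ x := by
    intro i hi
    obtain ⟨j, rfl⟩ : ∃ j, i = j + 1 := ⟨i - 1, by omega⟩
    rw [← le_iff (N (j + 1)), self_inv]
    exact (hall j).2.le
  have hcomm : ∀ m : ℕ, v ^ m * W = W * v ^ m := by
    have h1 : Commute v h := by rw [hvh]; exact (Commute.refl h).pow_left s₂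
    have h2 : Commute v l := by rw [hvl]; exact (Commute.refl l).pow_left s₄
    have h3 : Commute v W := by
      rw [hW, hR.Nn]
      exact (h1.zpow_right _).mul_right (h2.zpow_right _)
    intro m
    exact (h3.pow_left m).eq
  have hWx : W x ≤ (v ^ (r₂.natAbs + (-r₄).natAbs)) x := by
    rw [hW, hR.Nn, mul_apply]
    have h1 : (l ^ (-r₄)) x ≤ (v ^ (-r₄).natAbs) x := root_bound hs₄ hvl hv _
    have h2 : (h ^ r₂) x ≤ (v ^ r₂.natAbs) x := root_bound hs₂ hvh hv _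
    have h3 : Commute v h := by rw [hvh]; exact (Commute.refl h).pow_left s₂
    calc (h ^ r₂) ((l ^ (-r₄)) x) ≤ (h ^ r₂) ((v ^ (-r₄).natAbs) x) := (le_iff _).mpr h1
      _ = (v ^ (-r₄).natAbs) ((h ^ r₂) x) := by
        rw [← mul_apply, ← mul_apply, ((h3.pow_left (-r₄).natAbs).zpow_right r₂).eq]
      _ ≤ (v ^ (-r₄).natAbs) ((v ^ r₂.natAbs) x) := (le_iff _).mpr h2
      _ = (v ^ (r₂.natAbs + (-r₄).natAbs)) x := by
        rw [← mul_apply, ← pow_add, add_comm]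
  set J : X → Prop := fun t => t ≤ x ∧ (∃ m : ℕ, x ≤ (v ^ m) t) ∧ ∀ s, t ≤ s → s ≤ x → s < W s
    with hJ
  have hv' : ∀ t, J t → t < v t := by
    rintro t ⟨h1, ⟨m, h2⟩, _⟩
    by_contra hc
    rw [not_lt] at hc
    have h3 : t = x := le_antisymm h1 (h2.trans (pow_le hc m))
    rw [h3] at hc
    exact absurd hv (not_lt.mpr hc)
  have hfinal := compare hR.c hR.c' hR.fin hNx J ?_ ?_ ?_ n 0 (by omega) x ?_ le_rfl hx
  · rw [hE'] at hfinal
    exact lt_irrefl _ hfinal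
  · rintro t s ⟨h1, ⟨m, h2⟩, h3⟩ h4 h5
    have h4' : t ≤ W s := by
      rw [← le_iff W⁻¹, inv_self]; exact h4
    refine ⟨h5, ⟨(r₂.natAbs + (-r₄).natAbs) + m, ?_⟩, ?_⟩
    · have h6 : x ≤ W ((v ^ m) s) := by
        rw [← mul_apply, ← hcomm, mul_apply]
        exact h2.trans ((le_iff _).mpr h4')
      have h7 : W x ≤ (v ^ (r₂.natAbs + (-r₄).natAbs)) (W ((v ^ m) s)) :=
        hWx.trans ((le_iff _).mpr h6)
      rw [← mul_apply, hcomm, mul_apply, le_iff, ← mul_apply, ← pow_add] at h7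
      exact h7
    · intro s' h6 h7
      rcases le_or_gt t s' with h8 | h8
      · exact h3 s' h8 h7
      · exact h8.trans_le (h4'.trans ((le_iff _).mpr h6))
  · rintro t ⟨h1, _, h3⟩
    rw [← le_iff (N (n + 1)), self_inv]
    exact (h3 t le_rfl h1).le
  · intro t ht _
    have h1 := (lt_iff (E n)).mpr (hv' t ht)
    rw [hvdef, mul_apply, self_inv] at h1
    exact h1
  · refine ⟨le_rfl, ⟨0, ?_⟩, ?_⟩
    · rw [pow_zero, one_apply]
    · intro s h1 h2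
      obtain rfl : s = x := le_antisymm h2 h1
      exact (hall n).2

theorem Ends.not_up (hb : 0 < b 0) (hs₂ : 0 < s₂) (hs₄ : 0 < s₄)
    (hR : Ends n b s₂ s₄ r₂ r₄ N E N' E' h l) {x : X} (hN0 : N 0 x = x)
    (hE' : E' 0 x = E 0 x) : ¬ x < E 0 x := by
  intro hx
  rcases lt_trichotomy (((E n)⁻¹ * E' n) x) x with h1 | h1 | h1
  · refine Ends.not_up_aux hb hs₂ hs₄ hR.swap (x := x) ?_ hE'.symm ?_ ?_
    · rw [hR.start]; exact hN0
    · rw [hE']; exact hx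
    · have h2 : ((E' n)⁻¹ * E n) x = (((E n)⁻¹ * E' n)⁻¹) x := by
        rw [mul_inv_rev, inv_inv]
      rw [h2, ← lt_iff ((E n)⁻¹ * E' n), self_inv]
      exact h1
  · have h2 : h x = x := root_fix hs₂ (by rw [← hR.v]; exact h1)
    have h3 : l x = x := root_fix hs₄ (by rw [← hR.vl]; exact h1)
    have h4 := (hR.c.all_up hb hN0 hx n).2
    rw [hR.Nn, mul_apply, zpow_fix h3, zpow_fix h2] at h4
    exact lt_irrefl _ h4
  · exact Ends.not_up_aux hb hs₂ hs₄ hR hN0 hE' hx h1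

theorem Ends.fix_E (hb : 0 < b 0) (hs₂ : 0 < s₂) (hs₄ : 0 < s₄)
    (hR : Ends n b s₂ s₄ r₂ r₄ N E N' E' h l) {x : X} (hN0 : N 0 x = x)
    (hE' : E' 0 x = E 0 x) : E 0 x = x := by
  rcases lt_trichotomy (E 0 x) x with h1 | h1 | h1
  · exfalso
    refine Ends.not_up (X := Xᵒᵈ) hb hs₂ hs₄ (hR.map Aut.dual) (x := OrderDual.toDual x) ?_ ?_ ?_
    · rw [dual_apply, hN0]
    · rw [dual_apply, dual_apply, hE']
    · rw [dual_apply]; exact h1
  · exact h1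
  · exact absurd h1 (Ends.not_up hb hs₂ hs₄ hR hN0 hE')

theorem Chain.fix (hc : Chain b N E) {x : X} (hN : N 0 x = x) (hE : E 0 x = x) :
    ∀ i, N i x = x ∧ E i x = x := by
  intro i
  induction i with
  | zero => exact ⟨hN, hE⟩
  | succ i ih =>
    have h3 : N (i + 1) x = x := by rw [hc.N_succ i, mul_apply, pow_fix ih.2, ih.1]
    exact ⟨h3, by rw [hc.E_succ i, mul_apply, h3, ih.2]⟩

/-- A point that is fixed by `(E 0)⁻¹ * E' 0` and `N 0` is fixed by `E 0`, `E' 0`, `h`, `l`. -/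
theorem Ends.fix (hb : 0 < b 0) (hs₂ : 0 < s₂) (hs₄ : 0 < s₄)
    (hR : Ends n b s₂ s₄ r₂ r₄ N E N' E' h l) {x : X} (hN0 : N 0 x = x)
    (hu : ((E 0)⁻¹ * E' 0) x = x) : E 0 x = x ∧ E' 0 x = x ∧ h x = x ∧ l x = x := by
  have hE' : E' 0 x = E 0 x := by
    have : E 0 (((E 0)⁻¹ * E' 0) x) = E' 0 x := by rw [mul_apply, self_inv]
    rw [← this, hu]
  have h1 := hR.fix_E hb hs₂ hs₄ hN0 hE'
  have h2 : E' 0 x = x := hE'.trans h1
  have h3 := (hR.c.fix hN0 h1 n).2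
  have h4 := (hR.c'.fix (by rw [hR.start]; exact hN0) h2 n).2
  have h5 : ((E n)⁻¹ * E' n) x = x := by rw [mul_apply, h4, inv_fix h3]
  exact ⟨h1, h2, root_fix hs₂ (by rw [← hR.v]; exact h5),
    root_fix hs₄ (by rw [← hR.vl]; exact h5)⟩

/-- `(E 0)⁻¹ * E' 0` does not move all points up. -/
theorem Ends.not_all (hb : 0 < b 0) (hR : Ends n b s₂ s₄ r₂ r₄ N E N' E' h l)
    [Nonempty X] (hu : ∀ x, x < ((E 0)⁻¹ * E' 0) x) : False := by
  have hB : ∀ x, E 0 x < E' 0 x := by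
    intro x
    have : E 0 (((E 0)⁻¹ * E' 0) x) = E' 0 x := by rw [mul_apply, self_inv]
    rw [← this, lt_iff]
    exact hu x
  have hall : ∀ i, (∀ x, E i x < E' i x) ∧ ∀ x, N (i + 1) x < N' (i + 1) x := by
    intro i
    induction i with
    | zero =>
      refine ⟨hB, fun x => ?_⟩
      rw [hR.c.N_succ 0, hR.c'.N_succ 0, hR.start, mul_apply, mul_apply, lt_iff]
      exact pow_mono_lt hB _ hb x
    | succ i ih =>
      have h1 : ∀ x, E (i + 1) x < E' (i + 1) x := by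
        intro x
        rw [hR.c.E_succ i, hR.c'.E_succ i, mul_apply, mul_apply]
        exact (ih.1 _).trans ((lt_iff _).mpr (ih.2 x))
      refine ⟨h1, fun x => ?_⟩
      rw [hR.c.N_succ (i + 1), hR.c'.N_succ (i + 1), mul_apply, mul_apply]
      exact (ih.2 _).trans_le ((le_iff _).mpr (pow_mono h1 _ x))
  obtain ⟨x⟩ := ‹Nonempty X›
  have h1 := (hall n).2 x
  rw [hR.fin] at h1
  exact lt_irrefl _ h1

end core

/-- The chains in a subgroup. -/
theorem Ends.restrict {G : Type*} [Group G] {n : ℕ} {b : ℕ → ℕ} {s₂ s₄ : ℕ} {r₂ r₄ : ℤ}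
    {N E N' E' : ℕ → G} {h l : G} (hR : Ends n b s₂ s₄ r₂ r₄ N E N' E' h l) (K : Subgroup G)
    (hN : ∀ i, N i ∈ K) (hE : ∀ i, E i ∈ K) (hN' : ∀ i, N' i ∈ K) (hE' : ∀ i, E' i ∈ K)
    (hh : h ∈ K) (hl : l ∈ K) :
    Ends (G := K) n b s₂ s₄ r₂ r₄ (fun i => ⟨N i, hN i⟩) (fun i => ⟨E i, hE i⟩)
      (fun i => ⟨N' i, hN' i⟩) (fun i => ⟨E' i, hE' i⟩) ⟨h, hh⟩ ⟨l, hl⟩ := by
  refine ⟨⟨fun i => Subtype.ext (hR.c.N_succ i), fun i => Subtype.ext (hR.c.E_succ i)⟩,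
    ⟨fun i => Subtype.ext (hR.c'.N_succ i), fun i => Subtype.ext (hR.c'.E_succ i)⟩,
    Subtype.ext hR.start, Subtype.ext hR.fin, Subtype.ext hR.v, Subtype.ext hR.vl,
    Subtype.ext ?_⟩
  have := hR.Nn
  simpa using this

end Run7.h161.KN
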