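import Pool.Agent.Run7.h161.KN.Ends

set_option autoImplicit false

/-!
# Pieces with one boundary torus and their gluing
-/

namespace Run7.h161.KN

open Pool.Agent.Y479.LS Pool.Agent.Y479.LS.Aut

/-- The relations of a piece: three rational tangles, one open tangle ball with the peripheral
elements `(E 0)⁻¹ * E' 0` and `M`. -/
structure Piece {G : Type*} [Group G] (n : ℕ) (b : ℕ → ℕ) (s₂ s₃ s₄ : ℕ) (r₂ r₃ r₄ : ℤ)
    (N E N' E' : ℕ → G) (M h k l : G) : Prop where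
  ends : Ends n b s₂ s₄ r₂ r₄ N E N' E' h l
  uk : (E 0)⁻¹ * E' 0 = k ^ s₃
  N₀ : N 0 = M⁻¹ * k ^ r₃

theorem Piece.map {G H : Type*} [Group G] [Group H] {n : ℕ} {b : ℕ → ℕ} {s₂ s₃ s₄ : ℕ}
    {r₂ r₃ r₄ : ℤ} {N E N' E' : ℕ → G} {M h k l : G}
    (hP : Piece n b s₂ s₃ s₄ r₂ r₃ r₄ N E N' E' M h k l) (f : G →* H) :
    Piece n b s₂ s₃ s₄ r₂ r₃ r₄ (fun i => f (N i)) (fun i => f (E i)) (fun i => f (N' i))
      (fun i => f (E' i)) (f M) (f h) (f k) (f l) := by
  refine ⟨hP.ends.map f, ?_, ?_⟩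
  · simpa only [map_mul, map_pow, map_inv, map_zpow] using congrArg f hP.uk
  · simpa only [map_mul, map_pow, map_inv, map_zpow] using congrArg f hP.N₀

theorem Piece.commute {G : Type*} [Group G] {n : ℕ} {b : ℕ → ℕ} {s₂ s₃ s₄ : ℕ}
    {r₂ r₃ r₄ : ℤ} {N E N' E' : ℕ → G} {M h k l : G}
    (hP : Piece n b s₂ s₃ s₄ r₂ r₃ r₄ N E N' E' M h k l) : Commute ((E 0)⁻¹ * E' 0) M := by
  have h1 := hP.ends.commute
  have h2 : Commute ((E 0)⁻¹ * E' 0) (k ^ r₃) := by
    rw [hP.uk]; exact ((Commute.refl k).pow_left s₃).zpow_right r₃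
  have h3 : M = k ^ r₃ * (N 0)⁻¹ := by rw [hP.N₀]; group
  rw [h3]
  exact h2.mul_right h1.inv_right

section fix
variable {X : Type*} [LinearOrder X] {n : ℕ} {b : ℕ → ℕ} {s₂ s₃ s₄ : ℕ} {r₂ r₃ r₄ : ℤ}
  {N E N' E' : ℕ → Aut X} {M h k l : Aut X}

/-- `x` is a common fixed point of the generators of the piece. -/
def Fx (N E E' : ℕ → Aut X) (M h k l : Aut X) (x : X) : Prop :=
  E 0 x = x ∧ E' 0 x = x ∧ M x = x ∧ h x = x ∧ k x = x ∧ l x = x ∧ N 0 x = x

theorem Piece.fix_of (hb : 0 < b 0) (hs₂ : 0 < s₂) (hs₃ : 0 < s₃) (hs₄ : 0 < s₄)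
    (hP : Piece n b s₂ s₃ s₄ r₂ r₃ r₄ N E N' E' M h k l) {x : X}
    (hu : ((E 0)⁻¹ * E' 0) x = x) (hM : M x = x) : Fx N E E' M h k l x := by
  have hk : k x = x := root_fix hs₃ (by rw [← hP.uk]; exact hu)
  have hN0 : N 0 x = x := by rw [hP.N₀, mul_apply, zpow_fix hk, inv_fix hM]
  obtain ⟨h1, h2, h3, h4⟩ := hP.ends.fix hb hs₂ hs₄ hN0 hu
  exact ⟨h1, h2, hM, h3, hk, h4, hN0⟩

theorem zpow_le_zpow_apply {f : Aut X} {x : X} (h : x ≤ f x) {m n : ℤ} (hmn : m ≤ n) :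
    (f ^ m) x ≤ (f ^ n) x := by
  obtain ⟨j, hj⟩ := Int.eq_ofNat_of_zero_le (sub_nonneg.mpr hmn)
  have h1 : n = m + j := by omega
  rw [h1, zpow_add, mul_apply, zpow_natCast]
  exact (le_iff _).mpr (le_pow h j)

end fix

section complete
variable {X : Type*} [CompleteLinearOrder X]

theorem map_sSup' (f : Aut X) (A : Set X) : f (sSup A) = ⨆ v ∈ A, f v :=
  OrderIso.map_sSup (f : X ≃o X) A

theorem sSup_fix (f : Aut X) {A : Set X} (h : ∀ y ∈ A, f y = y) : f (sSup A) = sSup A := by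
  apply le_antisymm
  · rw [map_sSup']
    refine iSup₂_le fun v hv => ?_
    rw [h v hv]; exact le_sSup hv
  · refine sSup_le fun v hv => ?_
    rw [← h v hv]; exact (le_iff f).mpr (le_sSup hv)

theorem sInf_fix (f : Aut X) {A : Set X} (h : ∀ y ∈ A, f y = y) : f (sInf A) = sInf A :=
  sSup_fix (X := Xᵒᵈ) (dual f) (A := A) h

/-- If an orbit of `K` that consists of fixed points of `u` is bounded above then `K` and `u` have a
common fixed point. -/
theorem common_above (K u : Aut X) {z w : X} (hz : z < K z) (hu : ∀ j : ℕ, u ((K ^ j) z) = (K ^ j) z)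
    (hw : ∀ j : ℕ, (K ^ j) z ≤ w) : ∃ y, z ≤ y ∧ y ≤ w ∧ K y = y ∧ u y = y := by
  refine ⟨sSup (Set.range fun j : ℕ => (K ^ j) z), ?_, ?_, ?_, ?_⟩
  · refine le_sSup ⟨0, ?_⟩
    simp [one_apply]
  · refine sSup_le ?_
    rintro _ ⟨j, rfl⟩
    exact hw j
  · apply le_antisymm
    · rw [map_sSup']
      refine iSup₂_le ?_
      rintro _ ⟨j, rfl⟩
      refine le_sSup ⟨j + 1, ?_⟩
      exact pow_succ_apply K j z
    · refine sSup_le ?_
      rintro _ ⟨j, rfl⟩
      refine (pow_up hz j).le.trans ?_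
      exact (le_iff K).mpr (le_sSup ⟨j, rfl⟩)
  · refine sSup_fix u ?_
    rintro _ ⟨j, rfl⟩
    exact hu j

theorem common_below (K u : Aut X) {z w : X} (hz : K z < z) (hu : ∀ j : ℕ, u ((K ^ j) z) = (K ^ j) z)
    (hw : ∀ j : ℕ, w ≤ (K ^ j) z) : ∃ y, w ≤ y ∧ y ≤ z ∧ K y = y ∧ u y = y := by
  obtain ⟨y, h1, h2, h3, h4⟩ := common_above (X := Xᵒᵈ) (dual K) (dual u)
    (z := OrderDual.toDual z) (w := OrderDual.toDual w) hz
    (fun j => by rw [← map_pow]; exact hu j) (fun j => by rw [← map_pow]; exact hw j)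
  exact ⟨y, h2, h1, h3, h4⟩

theorem sign_const (f : Aut X) {a b x : X} (hax : a < x) (hxb : x < b) (hx : x < f x)
    (hno : ∀ z, a < z → z < b → f z ≠ z) : ∀ z, a < z → z < b → z < f z := by
  intro z h1 h2
  by_contra hc
  rw [not_lt] at hc
  rcases le_total z x with h3 | h3
  · obtain ⟨t, t1, t2, t3⟩ := Pool.Agent.W705.Borr.ivt (f : X ≃o X) h3 hc hx
    exact hno t (h1.trans_le t1) (t2.trans hxb) t3
  · obtain ⟨t, t1, t2, t3⟩ := Pool.Agent.W705.Borr.ivt' (f : X ≃o X) h3 hc hx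
    exact hno t (hax.trans t1) (t2.trans_lt h2) t3

/-- The orbit of `z` under `K` is unbounded in `(a, b)`, so `u ^ p * K ^ q` has no fixed point. -/
theorem no_fix (u K : Aut X) (huK : Commute u K) {a b x z : X} (hax : a < x) (hxb : x < b)
    (haz : a < z) (hzb : z < b) (hz : u z = z) (hK : z < K z)
    (hgap : ∀ y, a < y → y < b → u y = y → K y = y → False) {p q : ℤ} (hq : q ≠ 0)
    (hx : (u ^ p * K ^ q) x = x) : False := by
  have huj : ∀ j : ℤ, u ((K ^ j) z) = (K ^ j) z := by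
    intro j
    rw [← mul_apply, (huK.zpow_right j).eq, mul_apply, hz]
  have cof : ∃ j : ℕ, x < (K ^ j) z := by
    by_contra hc
    push Not at hc
    obtain ⟨y, h1, h2, h3, h4⟩ := common_above K u hK
      (fun j => by have := huj j; rwa [zpow_natCast] at this) hc
    exact hgap y (haz.trans_le h1) (h2.trans_lt hxb) h4 h3
  have hK' : K⁻¹ z < z := by
    rw [← lt_iff K, self_inv]; exact hK
  have coi : ∃ j : ℕ, ((K⁻¹) ^ j) z < x := by
    by_contra hc
    push Not at hc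
    obtain ⟨y, h1, h2, h3, h4⟩ := common_below K⁻¹ u hK'
      (fun j => by have := huj (-j); rwa [zpow_neg, zpow_natCast, ← inv_pow] at this) hc
    refine hgap y (hax.trans_le h1) (h2.trans_lt hzb) h4 ?_
    rw [← inj K⁻¹, inv_self, h3]
  obtain ⟨j, hj⟩ := cof
  obtain ⟨i, hi⟩ := coi
  have key : ∀ m : ℤ, x < (K ^ (q * m + j)) z := by
    intro m
    have h1 : ((u ^ p * K ^ q) ^ m) x = x := zpow_fix hx m
    have h2 : ((u ^ p * K ^ q) ^ m) ((K ^ j) z) = (K ^ (q * m + j)) z := by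
      have h3 : (u ^ p * K ^ q) ^ m = K ^ (q * m) * u ^ (p * m) := by
        rw [((huK.zpow_left p).zpow_right q).mul_zpow, ← zpow_mul, ← zpow_mul]
        exact ((huK.zpow_left (p * m)).zpow_right (q * m)).eq
      have h4 : (u ^ (p * m)) ((K ^ j) z) = (K ^ j) z := by
        refine zpow_fix ?_ _
        have := huj j
        rwa [zpow_natCast] at this
      rw [h3, mul_apply, h4, zpow_add, mul_apply, zpow_natCast]
    rw [← h2]
    calc x = ((u ^ p * K ^ q) ^ m) x := h1.symm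
      _ < _ := (lt_iff _).mpr hj
  have hi' : (K ^ (-(i : ℤ))) z < x := by
    rw [zpow_neg, zpow_natCast, ← inv_pow]; exact hi
  rcases lt_or_gt_of_ne hq with hq | hq
  · have h1 := key (i + j)
    have h2 : q * ((i : ℤ) + j) + j ≤ -(i : ℤ) := by nlinarith [Int.natCast_nonneg i, Int.natCast_nonneg j]
    exact absurd (h1.trans_le (zpow_le_zpow_apply hK.le h2)) (not_lt.mpr hi'.le)
  · have h1 := key (-(i + j))
    have h2 : q * (-((i : ℤ) + j)) + j ≤ -(i : ℤ) := by nlinarith [Int.natCast_nonneg i, Int.natCast_nonneg j]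
    exact absurd (h1.trans_le (zpow_le_zpow_apply hK.le h2)) (not_lt.mpr hi'.le)

variable {n : ℕ} {b : ℕ → ℕ} {s₂ s₃ s₄ : ℕ} {r₂ r₃ r₄ : ℤ}
  {N E N' E' : ℕ → Aut X} {M h k l : Aut X}

/-- The fixed points of a peripheral element that is not a power of `(E 0)⁻¹ * E' 0` are common
fixed points. -/
theorem Piece.controls (hb : 0 < b 0) (hs₂ : 0 < s₂) (hs₃ : 0 < s₃) (hs₄ : 0 < s₄)
    (hP : Piece n b s₂ s₃ s₄ r₂ r₃ r₄ N E N' E' M h k l) {p q : ℤ} (hq : q ≠ 0) {x : X}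
    (hx : (((E 0)⁻¹ * E' 0) ^ p * M ^ q) x = x) : Fx N E E' M h k l x := by
  set u := (E 0)⁻¹ * E' 0 with hu
  by_contra hF
  set A : Set X := {y | y ≤ x ∧ Fx N E E' M h k l y} with hA
  set B : Set X := {y | x ≤ y ∧ Fx N E E' M h k l y} with hB
  set a := sSup A with ha
  set c := sInf B with hc
  have Fa : Fx N E E' M h k l a :=
    ⟨sSup_fix _ fun y hy => hy.2.1, sSup_fix _ fun y hy => hy.2.2.1,
      sSup_fix _ fun y hy => hy.2.2.2.1, sSup_fix _ fun y hy => hy.2.2.2.2.1,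
      sSup_fix _ fun y hy => hy.2.2.2.2.2.1, sSup_fix _ fun y hy => hy.2.2.2.2.2.2.1,
      sSup_fix _ fun y hy => hy.2.2.2.2.2.2.2⟩
  have Fc : Fx N E E' M h k l c :=
    ⟨sInf_fix _ fun y hy => hy.2.1, sInf_fix _ fun y hy => hy.2.2.1,
      sInf_fix _ fun y hy => hy.2.2.2.1, sInf_fix _ fun y hy => hy.2.2.2.2.1,
      sInf_fix _ fun y hy => hy.2.2.2.2.2.1, sInf_fix _ fun y hy => hy.2.2.2.2.2.2.1,
      sInf_fix _ fun y hy => hy.2.2.2.2.2.2.2⟩
  have hax : a < x := by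
    refine lt_of_le_of_ne (sSup_le fun y hy => hy.1) ?_
    intro e; exact hF (e ▸ Fa)
  have hxc : x < c := by
    refine lt_of_le_of_ne (le_sInf fun y hy => hy.1) ?_
    intro e; exact hF (e ▸ Fc)
  have hgap : ∀ y, a < y → y < c → ¬ Fx N E E' M h k l y := by
    intro y h1 h2 h3
    rcases le_total y x with h4 | h4
    · exact absurd (le_sSup (show y ∈ A from ⟨h4, h3⟩)) (not_le.mpr h1)
    · exact absurd (sInf_le (show y ∈ B from ⟨h4, h3⟩)) (not_le.mpr h2)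
  have hgap' : ∀ y, a < y → y < c → u y = y → M y = y → False := fun y h1 h2 h3 h4 =>
    hgap y h1 h2 (hP.fix_of hb hs₂ hs₃ hs₄ h3 h4)
  have hN'a : N' 0 a = a := by rw [hP.ends.start]; exact Fa.2.2.2.2.2.2
  have hN'c : N' 0 c = c := by rw [hP.ends.start]; exact Fc.2.2.2.2.2.2
  have ca := hP.ends.c.fix Fa.2.2.2.2.2.2 Fa.1
  have cc := hP.ends.c.fix Fc.2.2.2.2.2.2 Fc.1
  have ca' := hP.ends.c'.fix hN'a Fa.2.1
  have cc' := hP.ends.c'.fix hN'c Fc.2.1
  have hne : Nonempty (Set.Ioo a c) := ⟨⟨x, hax, hxc⟩⟩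
  have hEr := (hP.ends.restrict (stab a c) (fun i => ⟨(ca i).1, (cc i).1⟩)
    (fun i => ⟨(ca i).2, (cc i).2⟩) (fun i => ⟨(ca' i).1, (cc' i).1⟩)
    (fun i => ⟨(ca' i).2, (cc' i).2⟩) ⟨Fa.2.2.2.1, Fc.2.2.2.1⟩
    ⟨Fa.2.2.2.2.2.1, Fc.2.2.2.2.2.1⟩).map (res a c)
  obtain ⟨z, haz, hzc, hz⟩ : ∃ z, a < z ∧ z < c ∧ u z = z := by
    by_contra hno
    push Not at hno
    rcases lt_trichotomy (u x) x with h1 | h1 | h1
    · have h2 : x < u⁻¹ x := by
        rw [← lt_iff u, self_inv]; exact h1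
      have h3 := sign_const u⁻¹ hax hxc h2 (fun z h4 h5 h6 => hno z h4 h5 (by
        rw [← inj u⁻¹, inv_self, h6]))
      refine hEr.swap.not_all hb fun y => ?_
      have h4 := h3 y.1 y.2.1 y.2.2
      rw [← map_inv, ← map_mul]
      show y.1 < _
      rw [res_apply]
      show y.1 < ((E' 0)⁻¹ * E 0) y.1
      have h5 : (E' 0)⁻¹ * E 0 = u⁻¹ := by rw [hu, mul_inv_rev, inv_inv]
      rw [h5]; exact h4
    · exact hno x hax hxc h1
    · have h3 := sign_const u hax hxc h1 hno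
      refine hEr.not_all hb fun y => ?_
      have h4 := h3 y.1 y.2.1 y.2.2
      rw [← map_inv, ← map_mul]
      show y.1 < _
      rw [res_apply]
      exact h4
  rcases lt_trichotomy (M z) z with h1 | h1 | h1
  · have h2 : z < M⁻¹ z := by
      rw [← lt_iff M, self_inv]; exact h1
    refine no_fix u M⁻¹ hP.commute.inv_right hax hxc haz hzc hz h2 ?_ (p := p) (q := -q)
      (neg_ne_zero.mpr hq) ?_
    · intro y h3 h4 h5 h6
      refine hgap' y h3 h4 h5 ?_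
      rw [← inj M⁻¹, inv_self, h6]
    · rw [inv_zpow', neg_neg]; exact hx
  · exact hgap' z haz hzc hz h1
  · exact no_fix u M hP.commute hax hxc haz hzc hz h1 hgap' hq hx

end complete

/-- The action on the lower sets. -/
def up (X : Type*) [LinearOrder X] : Aut X →* Aut (LowerSet X) where
  toFun f := LowerSet.map (f : X ≃o X)
  map_one' := by
    refine ext' fun s => ?_
    show LowerSet.map (OrderIso.refl X) s = s
    rw [LowerSet.map_refl]; rfl
  map_mul' f g := by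
    refine ext' fun s => ?_
    exact (LowerSet.map_map (f : X ≃o X) (g : X ≃o X) (s := s)).symm

theorem up_Iic {X : Type*} [LinearOrder X] (f : Aut X) (x : X) :
    up X f (LowerSet.Iic x) = LowerSet.Iic (f x) := LowerSet.map_Iic (f : X ≃o X) x

end Run7.h161.KN

namespace Run7.h161.KN

open Pool.Agent.Y479.LS Pool.Agent.Y479.LS.Aut

/-- Two pieces glued along their boundary tori: homomorphisms to left-orderable groups are
trivial. -/
theorem glue_triv {Γ : Type*} [Group Γ] {n : ℕ} {b : ℕ → ℕ} {s₂ s₃ s₄ : ℕ} {r₂ r₃ r₄ : ℤ}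
    {N E N' E' : ℕ → Γ} {M h k l : Γ} (hP : Piece n b s₂ s₃ s₄ r₂ r₃ r₄ N E N' E' M h k l)
    (hb : 0 < b 0) (hs₂ : 0 < s₂) (hs₃ : 0 < s₃) (hs₄ : 0 < s₄)
    {m : ℕ} {d : ℕ → ℕ} {t₂ t₃ t₄ : ℕ} {q₂ q₃ q₄ : ℤ} {P Q P' Q' : ℕ → Γ} {L x y z : Γ}
    (hQ : Piece m d t₂ t₃ t₄ q₂ q₃ q₄ P Q P' Q' L x y z)
    (hd : 0 < d 0) (ht₂ : 0 < t₂) (ht₃ : 0 < t₃) (ht₄ : 0 < t₄)
    {α β γ δ : ℤ} (hdet : α * δ - β * γ = 1 ∨ α * δ - β * γ = -1) (hβ : β ≠ 0)
    (g₁ : (Q 0)⁻¹ * Q' 0 = ((E 0)⁻¹ * E' 0) ^ α * M ^ β)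
    (g₂ : L = ((E 0)⁻¹ * E' 0) ^ γ * M ^ δ)
    (hgen : Subgroup.closure ({E 0, E' 0, M, h, k, l} ∪ {Q 0, Q' 0, L, x, y, z}) = ⊤)
    (H : Type) [Group H] (hH : LeftOrderable H) (f : Γ →* H) (c : Γ) : f c = 1 := by
  have huM := hP.commute
  set u := (E 0)⁻¹ * E' 0 with hu
  set w := (Q 0)⁻¹ * Q' 0 with hw
  set e := α * δ - β * γ with he
  have e1 : w ^ δ * L ^ (-β) = u ^ e := by
    rw [g₁, g₂, ((huM.zpow_left α).zpow_right β).mul_zpow,
      ((huM.zpow_left γ).zpow_right δ).mul_zpow, ← zpow_mul, ← zpow_mul, ← zpow_mul,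
      ← zpow_mul]
    have h1 : M ^ (β * δ) * u ^ (γ * -β) = u ^ (γ * -β) * M ^ (β * δ) :=
      ((huM.zpow_left (γ * -β)).zpow_right (β * δ)).eq.symm
    calc u ^ (α * δ) * M ^ (β * δ) * (u ^ (γ * -β) * M ^ (δ * -β))
        = u ^ (α * δ) * (M ^ (β * δ) * u ^ (γ * -β)) * M ^ (δ * -β) := by group
      _ = u ^ (α * δ) * u ^ (γ * -β) * (M ^ (β * δ) * M ^ (δ * -β)) := by
        rw [h1]; group
      _ = u ^ e := by
        rw [← zpow_add, ← zpow_add]
        have : β * δ + δ * -β = 0 := by ring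
        rw [this, zpow_zero, mul_one]
        congr 1
        rw [he]; ring
  have e2 : w ^ (-γ) * L ^ α = M ^ e := by
    rw [g₁, g₂, ((huM.zpow_left α).zpow_right β).mul_zpow,
      ((huM.zpow_left γ).zpow_right δ).mul_zpow, ← zpow_mul, ← zpow_mul, ← zpow_mul,
      ← zpow_mul]
    have h1 : M ^ (β * -γ) * u ^ (γ * α) = u ^ (γ * α) * M ^ (β * -γ) :=
      ((huM.zpow_left (γ * α)).zpow_right (β * -γ)).eq.symm
    calc u ^ (α * -γ) * M ^ (β * -γ) * (u ^ (γ * α) * M ^ (δ * α))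
        = u ^ (α * -γ) * (M ^ (β * -γ) * u ^ (γ * α)) * M ^ (δ * α) := by group
      _ = u ^ (α * -γ) * u ^ (γ * α) * (M ^ (β * -γ) * M ^ (δ * α)) := by
        rw [h1]; group
      _ = M ^ e := by
        rw [← zpow_add, ← zpow_add]
        have : α * -γ + γ * α = 0 := by ring
        rw [this, zpow_zero, one_mul]
        congr 1
        rw [he]; ring
  have he0 : ∀ {Y : Type} [LinearOrder Y] (g : Aut Y) (p : Y), (g ^ e) p = p → g p = p := by
    intro Y _ g p hp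
    rcases hdet with h1 | h1
    · rwa [h1, zpow_one] at hp
    · rw [h1, zpow_neg, zpow_one] at hp
      rw [← inj g⁻¹, inv_self, hp]
  refine hom_trivial u ?_ ?_ H hH f c
  · intro X _ φ p hp c
    set ψ : Γ →* Aut (LowerSet X) := (up X).comp φ with hψ
    set p' : LowerSet X := LowerSet.Iic p with hp'
    have hup : ψ u p' = p' := by
      rw [hψ, MonoidHom.comp_apply, hp', up_Iic, hp]
    have hP' := hP.map ψ
    have hQ' := hQ.map ψ
    have h1 : (((ψ (Q 0))⁻¹ * ψ (Q' 0)) ^ δ * ψ L ^ (-β)) p' = p' := by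
      have h2 : ((ψ (Q 0))⁻¹ * ψ (Q' 0)) ^ δ * ψ L ^ (-β) = ψ u ^ e := by
        rw [← map_inv, ← map_mul, ← map_zpow, ← map_zpow, ← map_mul, ← map_zpow]
        exact congrArg ψ e1
      rw [h2]
      exact zpow_fix hup e
    obtain ⟨q1, q2, q3, q4, q5, q6, _⟩ :=
      hQ'.controls hd ht₂ ht₃ ht₄ (neg_ne_zero.mpr hβ) h1
    have h3 : ψ M p' = p' := by
      refine he0 (ψ M) p' ?_
      have h4 : ψ M ^ e = ((ψ (Q 0))⁻¹ * ψ (Q' 0)) ^ (-γ) * ψ L ^ α := by
        rw [← map_inv, ← map_mul, ← map_zpow, ← map_zpow, ← map_zpow, ← map_mul]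
        exact congrArg ψ e2.symm
      have h5 : ((ψ (Q 0))⁻¹ * ψ (Q' 0)) p' = p' := by
        rw [mul_apply, q2, inv_fix q1]
      rw [h4, mul_apply, zpow_fix q3, zpow_fix h5]
    have h6 : ((ψ (E 0))⁻¹ * ψ (E' 0)) p' = p' := by
      rw [← map_inv, ← map_mul]; exact hup
    obtain ⟨p1, p2, p3, p4, p5, p6, _⟩ := hP'.fix_of hb hs₂ hs₃ hs₄ h6 h3
    have hall : ψ c p' = p' := by
      have hc : c ∈ Subgroup.closure ({E 0, E' 0, M, h, k, l} ∪ {Q 0, Q' 0, L, x, y, z}) := by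
        rw [hgen]; trivial
      induction hc using Subgroup.closure_induction with
      | mem g hg =>
        rcases hg with (rfl | rfl | rfl | rfl | rfl | hg) | (rfl | rfl | rfl | rfl | rfl | hg)
        · exact p1
        · exact p2
        · exact p3
        · exact p4
        · exact p5
        · rw [Set.mem_singleton_iff] at hg; rw [hg]; exact p6
        · exact q1
        · exact q2
        · exact q3
        · exact q4
        · exact q5
        · rw [Set.mem_singleton_iff] at hg; rw [hg]; exact q6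
      | one => rw [map_one, one_apply]
      | mul g g' _ _ h5 h6 => rw [map_mul, mul_apply, h6, h5]
      | inv g _ h5 => rw [map_inv]; exact inv_fix h5
    rw [hψ, MonoidHom.comp_apply, hp', up_Iic] at hall
    exact LowerSet.Iic_injective hall
  · intro X _ _ φ hφ
    refine (hP.ends.map φ).not_all hb ?_
    simpa only [hu, map_mul, map_inv] using hφ

end Run7.h161.KN
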