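import Pool.Agent.Run7.h161.KN.Slots

set_option autoImplicit false

/-!
# Pieces with rational or alternating tangles and one boundary torus, and their gluing
-/

namespace Run7.h161.KN

open Pool.Agent.Y479.LS Pool.Agent.Y479.LS.Aut

/-- The relations of a piece. -/
structure Piece2 {G : Type*} [Group G] (n : ℕ) (b : ℕ → ℕ) (N E N' E' : ℕ → G) (M A : G) :
    Prop where
  ends : Ends2 n b N E N' E'
  comm : Commute ((E 0)⁻¹ * E' 0) M
  N₀ : N 0 = M⁻¹ * A

theorem Piece2.map {G H : Type*} [Group G] [Group H] {n : ℕ} {b : ℕ → ℕ}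
    {N E N' E' : ℕ → G} {M A : G} (hP : Piece2 n b N E N' E' M A) (f : G →* H) :
    Piece2 n b (fun i => f (N i)) (fun i => f (E i)) (fun i => f (N' i)) (fun i => f (E' i))
      (f M) (f A) := by
  refine ⟨hP.ends.map f, ?_, ?_⟩
  · simpa only [map_mul, map_inv] using hP.comm.map f
  · simpa only [map_mul, map_inv] using congrArg f hP.N₀

/-- The chains in a subgroup. -/
theorem Ends2.restrict {G : Type*} [Group G] {n : ℕ} {b : ℕ → ℕ}
    {N E N' E' : ℕ → G} (hR : Ends2 n b N E N' E') (K : Subgroup G)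
    (hN : ∀ i, N i ∈ K) (hE : ∀ i, E i ∈ K) (hN' : ∀ i, N' i ∈ K) (hE' : ∀ i, E' i ∈ K) :
    Ends2 (G := K) n b (fun i => ⟨N i, hN i⟩) (fun i => ⟨E i, hE i⟩)
      (fun i => ⟨N' i, hN' i⟩) (fun i => ⟨E' i, hE' i⟩) :=
  ⟨⟨fun i => Subtype.ext (hR.c.N_succ i), fun i => Subtype.ext (hR.c.E_succ i)⟩,
    ⟨fun i => Subtype.ext (hR.c'.N_succ i), fun i => Subtype.ext (hR.c'.E_succ i)⟩,
    Subtype.ext hR.start, Subtype.ext hR.fin⟩

section complete
variable {X : Type*} [CompleteLinearOrder X] {n : ℕ} {b : ℕ → ℕ} {N E N' E' : ℕ → Aut X}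
  {M A : Aut X}

/-- `x` is a common fixed point of `E 0`, `E' 0`, `M`, `A`. -/
def Fx2 (E E' : ℕ → Aut X) (M A : Aut X) (x : X) : Prop :=
  E 0 x = x ∧ E' 0 x = x ∧ M x = x ∧ A x = x

theorem Piece2.fix_of (hb : 0 < b 0) (hP : Piece2 n b N E N' E' M A)
    (hst : ∀ y, E' 0 y = E 0 y → A y = y)
    (hctl : ∀ y, E' n y = E n y → N (n + 1) y = y) {x : X}
    (hu : ((E 0)⁻¹ * E' 0) x = x) (hM : M x = x) : Fx2 E E' M A x := by
  have hE : E' 0 x = E 0 x := by
    have : E 0 (((E 0)⁻¹ * E' 0) x) = E' 0 x := by rw [mul_apply, self_inv]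
    rw [← this, hu]
  have hA := hst x hE
  have hN0 : N 0 x = x := by rw [hP.N₀, mul_apply, hA, inv_fix hM]
  have hctl' : ∀ y, ((E n)⁻¹ * E' n) y = y → N (n + 1) y = y := by
    intro y hy
    refine hctl y ?_
    have h4 : E n (((E n)⁻¹ * E' n) y) = E' n y := by rw [mul_apply, self_inv]
    rw [← h4, hy]
  have h1 := hP.ends.fix_E hb hctl' hN0 hE
  exact ⟨h1, hE.trans h1, hM, hA⟩

/-- The fixed points of a peripheral element that is not a power of `(E 0)⁻¹ * E' 0` are common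
fixed points. -/
theorem Piece2.controls (hb : 0 < b 0) (hP : Piece2 n b N E N' E' M A)
    (hst : ∀ y, E' 0 y = E 0 y → A y = y)
    (hctl : ∀ y, E' n y = E n y → N (n + 1) y = y) {p q : ℤ} (hq : q ≠ 0) {x : X}
    (hx : (((E 0)⁻¹ * E' 0) ^ p * M ^ q) x = x) : Fx2 E E' M A x := by
  set u := (E 0)⁻¹ * E' 0 with hu
  by_contra hF
  set S : Set X := {y | y ≤ x ∧ Fx2 E E' M A y} with hS
  set B : Set X := {y | x ≤ y ∧ Fx2 E E' M A y} with hB
  set a := sSup S with ha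
  set c := sInf B with hc
  have Fa : Fx2 E E' M A a :=
    ⟨sSup_fix _ fun y hy => hy.2.1, sSup_fix _ fun y hy => hy.2.2.1,
      sSup_fix _ fun y hy => hy.2.2.2.1, sSup_fix _ fun y hy => hy.2.2.2.2⟩
  have Fc : Fx2 E E' M A c :=
    ⟨sInf_fix _ fun y hy => hy.2.1, sInf_fix _ fun y hy => hy.2.2.1,
      sInf_fix _ fun y hy => hy.2.2.2.1, sInf_fix _ fun y hy => hy.2.2.2.2⟩
  have hax : a < x := by
    refine lt_of_le_of_ne (sSup_le fun y hy => hy.1) ?_
    intro e; exact hF (e ▸ Fa)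
  have hxc : x < c := by
    refine lt_of_le_of_ne (le_sInf fun y hy => hy.1) ?_
    intro e; exact hF (e ▸ Fc)
  have hgap : ∀ y, a < y → y < c → ¬ Fx2 E E' M A y := by
    intro y h1 h2 h3
    rcases le_total y x with h4 | h4
    · exact absurd (le_sSup (show y ∈ S from ⟨h4, h3⟩)) (not_le.mpr h1)
    · exact absurd (sInf_le (show y ∈ B from ⟨h4, h3⟩)) (not_le.mpr h2)
  have hgap' : ∀ y, a < y → y < c → u y = y → M y = y → False := fun y h1 h2 h3 h4 =>
    hgap y h1 h2 (hP.fix_of hb hst hctl h3 h4)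
  have hNfix : ∀ {y : X}, Fx2 E E' M A y → N 0 y = y := by
    intro y hy
    rw [hP.N₀, mul_apply, hy.2.2.2, inv_fix hy.2.2.1]
  have hN'a : N' 0 a = a := by rw [hP.ends.start]; exact hNfix Fa
  have hN'c : N' 0 c = c := by rw [hP.ends.start]; exact hNfix Fc
  have ca := hP.ends.c.fix (hNfix Fa) Fa.1
  have cc := hP.ends.c.fix (hNfix Fc) Fc.1
  have ca' := hP.ends.c'.fix hN'a Fa.2.1
  have cc' := hP.ends.c'.fix hN'c Fc.2.1
  have hne : Nonempty (Set.Ioo a c) := ⟨⟨x, hax, hxc⟩⟩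
  have hEr := (hP.ends.restrict (stab a c) (fun i => ⟨(ca i).1, (cc i).1⟩)
    (fun i => ⟨(ca i).2, (cc i).2⟩) (fun i => ⟨(ca' i).1, (cc' i).1⟩)
    (fun i => ⟨(ca' i).2, (cc' i).2⟩)).map (res a c)
  obtain ⟨z, haz, hzc, hz⟩ : ∃ z, a < z ∧ z < c ∧ u z = z := by
    by_contra hno
    push Not at hno
    rcases lt_trichotomy (u x) x with h1 | h1 | h1
    · have h2 : x < u⁻¹ x := by
        rw [← lt_iff u, self_inv]; exact h1
      have h3 := sign_const u⁻¹ hax hxc h2 (fun z h4 h5 h6 => hno z h4 h5 (by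
        rw [← inj u⁻¹, inv_self, h6]))
      refine hEr.swap.not_all hb fun y => ?_
      have h4 := h3 y.1 y.2.1 y.2.2
      rw [← map_inv, ← map_mul]
      show y.1 < _
      rw [res_apply]
      show y.1 < ((E' 0)⁻¹ * E 0) y.1
      have h5 : (E' 0)⁻¹ * E 0 = u⁻¹ := by rw [hu, mul_inv_rev, inv_inv]
      rw [h5]; exact h4
    · exact hno x hax hxc h1
    · have h3 := sign_const u hax hxc h1 hno
      refine hEr.not_all hb fun y => ?_
      have h4 := h3 y.1 y.2.1 y.2.2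
      rw [← map_inv, ← map_mul]
      show y.1 < _
      rw [res_apply]
      exact h4
  rcases lt_trichotomy (M z) z with h1 | h1 | h1
  · have h2 : z < M⁻¹ z := by
      rw [← lt_iff M, self_inv]; exact h1
    refine no_fix u M⁻¹ hP.comm.inv_right hax hxc haz hzc hz h2 ?_ (p := p) (q := -q)
      (neg_ne_zero.mpr hq) ?_
    · intro y h3 h4 h5 h6
      refine hgap' y h3 h4 h5 ?_
      rw [← inj M⁻¹, inv_self, h6]
    · rw [inv_zpow', neg_neg]; exact hx
  · exact hgap' z haz hzc hz h1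
  · exact no_fix u M hP.comm hax hxc haz hzc hz h1 hgap' hq hx

end complete

/-- Two pieces glued along their boundary tori. -/
theorem glue_triv2 {Γ : Type*} [Group Γ] {n : ℕ} {b : ℕ → ℕ} {N E N' E' : ℕ → Γ} {M A : Γ}
    (hP : Piece2 n b N E N' E' M A) (hb : 0 < b 0)
    (hst : ∀ (X : Type) [CompleteLinearOrder X] (φ : Γ →* Aut X) (x : X),
      φ (E' 0) x = φ (E 0) x → φ A x = x)
    (hctl : ∀ (X : Type) [CompleteLinearOrder X] (φ : Γ →* Aut X) (x : X),
      φ (E' n) x = φ (E n) x → φ (N (n + 1)) x = x)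
    {m : ℕ} {d : ℕ → ℕ} {P Q P' Q' : ℕ → Γ} {L B : Γ} (hQ : Piece2 m d P Q P' Q' L B)
    (hd : 0 < d 0)
    (hst' : ∀ (X : Type) [CompleteLinearOrder X] (φ : Γ →* Aut X) (x : X),
      φ (Q' 0) x = φ (Q 0) x → φ B x = x)
    (hctl' : ∀ (X : Type) [CompleteLinearOrder X] (φ : Γ →* Aut X) (x : X),
      φ (Q' m) x = φ (Q m) x → φ (P (m + 1)) x = x)
    {α β γ δ : ℤ} (hdet : α * δ - β * γ = 1 ∨ α * δ - β * γ = -1) (hβ : β ≠ 0)
    (g₁ : (Q 0)⁻¹ * Q' 0 = ((E 0)⁻¹ * E' 0) ^ α * M ^ β)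
    (g₂ : L = ((E 0)⁻¹ * E' 0) ^ γ * M ^ δ)
    (hall : ∀ (X : Type) [CompleteLinearOrder X] (φ : Γ →* Aut X) (x : X),
      φ (E 0) x = x → φ (E' 0) x = x → φ M x = x → φ (Q 0) x = x → φ (Q' 0) x = x →
        φ L x = x → ∀ c, φ c x = x)
    (H : Type) [Group H] (hH : LeftOrderable H) (f : Γ →* H) (c : Γ) : f c = 1 := by
  have huM := hP.comm
  set u := (E 0)⁻¹ * E' 0 with hu
  set w := (Q 0)⁻¹ * Q' 0 with hw
  set e := α * δ - β * γ with he
  have e1 : w ^ δ * L ^ (-β) = u ^ e := by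
    rw [g₁, g₂, ((huM.zpow_left α).zpow_right β).mul_zpow,
      ((huM.zpow_left γ).zpow_right δ).mul_zpow, ← zpow_mul, ← zpow_mul, ← zpow_mul,
      ← zpow_mul]
    have h1 : M ^ (β * δ) * u ^ (γ * -β) = u ^ (γ * -β) * M ^ (β * δ) :=
      ((huM.zpow_left (γ * -β)).zpow_right (β * δ)).eq.symm
    calc u ^ (α * δ) * M ^ (β * δ) * (u ^ (γ * -β) * M ^ (δ * -β))
        = u ^ (α * δ) * (M ^ (β * δ) * u ^ (γ * -β)) * M ^ (δ * -β) := by group
      _ = u ^ (α * δ) * u ^ (γ * -β) * (M ^ (β * δ) * M ^ (δ * -β)) := by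
        rw [h1]; group
      _ = u ^ e := by
        rw [← zpow_add, ← zpow_add]
        have : β * δ + δ * -β = 0 := by ring
        rw [this, zpow_zero, mul_one]
        congr 1
        rw [he]; ring
  have e2 : w ^ (-γ) * L ^ α = M ^ e := by
    rw [g₁, g₂, ((huM.zpow_left α).zpow_right β).mul_zpow,
      ((huM.zpow_left γ).zpow_right δ).mul_zpow, ← zpow_mul, ← zpow_mul, ← zpow_mul,
      ← zpow_mul]
    have h1 : M ^ (β * -γ) * u ^ (γ * α) = u ^ (γ * α) * M ^ (β * -γ) :=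
      ((huM.zpow_left (γ * α)).zpow_right (β * -γ)).eq.symm
    calc u ^ (α * -γ) * M ^ (β * -γ) * (u ^ (γ * α) * M ^ (δ * α))
        = u ^ (α * -γ) * (M ^ (β * -γ) * u ^ (γ * α)) * M ^ (δ * α) := by group
      _ = u ^ (α * -γ) * u ^ (γ * α) * (M ^ (β * -γ) * M ^ (δ * α)) := by
        rw [h1]; group
      _ = M ^ e := by
        rw [← zpow_add, ← zpow_add]
        have : α * -γ + γ * α = 0 := by ring
        rw [this, zpow_zero, one_mul]
        congr 1
        rw [he]; ring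
  have he0 : ∀ {Y : Type} [LinearOrder Y] (g : Aut Y) (p : Y), (g ^ e) p = p → g p = p := by
    intro Y _ g p hp
    rcases hdet with h1 | h1
    · rwa [h1, zpow_one] at hp
    · rw [h1, zpow_neg, zpow_one] at hp
      rw [← inj g⁻¹, inv_self, hp]
  refine hom_trivial u ?_ ?_ H hH f c
  · intro X _ φ p hp c
    set ψ : Γ →* Aut (LowerSet X) := (up X).comp φ with hψ
    set p' : LowerSet X := LowerSet.Iic p with hp'
    have hup : ψ u p' = p' := by
      rw [hψ, MonoidHom.comp_apply, hp', up_Iic, hp]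
    have h1 : (((ψ (Q 0))⁻¹ * ψ (Q' 0)) ^ δ * ψ L ^ (-β)) p' = p' := by
      have h2 : ((ψ (Q 0))⁻¹ * ψ (Q' 0)) ^ δ * ψ L ^ (-β) = ψ u ^ e := by
        rw [← map_inv, ← map_mul, ← map_zpow, ← map_zpow, ← map_mul, ← map_zpow]
        exact congrArg ψ e1
      rw [h2]
      exact zpow_fix hup e
    obtain ⟨q1, q2, q3, _⟩ :=
      (hQ.map ψ).controls hd (hst' _ ψ) (hctl' _ ψ) (neg_ne_zero.mpr hβ) h1
    have h3 : ψ M p' = p' := by
      refine he0 (ψ M) p' ?_
      have h4 : ψ M ^ e = ((ψ (Q 0))⁻¹ * ψ (Q' 0)) ^ (-γ) * ψ L ^ α := by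
        rw [← map_inv, ← map_mul, ← map_zpow, ← map_zpow, ← map_zpow, ← map_mul]
        exact congrArg ψ e2.symm
      have h5 : ((ψ (Q 0))⁻¹ * ψ (Q' 0)) p' = p' := by
        rw [mul_apply, q2, inv_fix q1]
      rw [h4, mul_apply, zpow_fix q3, zpow_fix h5]
    have h6 : ((ψ (E 0))⁻¹ * ψ (E' 0)) p' = p' := by
      rw [← map_inv, ← map_mul]; exact hup
    obtain ⟨p1, p2, _, _⟩ := (hP.map ψ).fix_of hb (hst _ ψ) (hctl _ ψ) h6 h3
    have h7 := hall _ ψ p' p1 p2 h3 q1 q2 q3 c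
    rw [hψ, MonoidHom.comp_apply, hp', up_Iic] at h7
    exact LowerSet.Iic_injective h7
  · intro X _ _ φ hφ
    refine (hP.ends.map φ).not_all hb ?_
    simpa only [hu, map_mul, map_inv] using hφ

namespace Slot

/-- Values of the generators of a slot in an abelian group: white regions `a`, black regions
`c`. -/
def val {A : Type} [CommGroup A] (a c : A) : (S : Slot) → S.Gen → A
  | rational _ _ => fun _ => 1
  | tangle _ _ => Sum.elim (fun _ => a) (fun _ => c)

theorem white_one {F A : Type} [Group F] [CommGroup A] {S : Slot} {g : S.Gen → F}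
    {x x' e e' : F} (Φ : F →* A) {a c : A} (hx : Φ x = a) (hx' : Φ x' = a) (he : Φ e = c)
    (he' : Φ e' = c) (hg : ∀ z, Φ (g z) = S.val a c z) : ∀ w ∈ S.white g x x' e e', Φ w = 1 := by
  cases S with
  | rational s r =>
    have h := hg ()
    simp only [val] at h
    rintro w (rfl | hw)
    · simp [h, hx, hx']
    · rw [Set.mem_singleton_iff] at hw
      subst hw
      simp [h, he, he']
  | tangle T flip =>
    have hl : ∀ z, Φ (g (Sum.inl z)) = a := fun z => hg (Sum.inl z)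
    have hr : ∀ z, Φ (g (Sum.inr z)) = c := fun z => hg (Sum.inr z)
    rintro w ((rfl | rfl | rfl | hw) | ⟨d, rfl⟩)
    · simp [hl, hx]
    · simp [hl, hx']
    · cases flip <;> simp [hr, he, he']
    · rw [Set.mem_singleton_iff] at hw
      subst hw
      cases flip <;> simp [hr, he, he']
    · simp [hl, hr]

theorem black_one {F A : Type} [Group F] [CommGroup A] {S : Slot} {g : S.Gen → F}
    {x x' e e' : F} (Φ : F →* A) {a c : A} (hx : Φ x = c) (hx' : Φ x' = c) (he : Φ e = a)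
    (he' : Φ e' = a) (hg : ∀ z, Φ (g z) = S.val a c z) : ∀ w ∈ S.black g x x' e e', Φ w = 1 := by
  cases S with
  | rational s r =>
    have h := hg ()
    simp only [val] at h
    rintro w (rfl | hw)
    · simp [h, hx, hx']
    · rw [Set.mem_singleton_iff] at hw
      subst hw
      simp [h, he, he']
  | tangle T flip =>
    have hl : ∀ z, Φ (g (Sum.inl z)) = a := fun z => hg (Sum.inl z)
    have hr : ∀ z, Φ (g (Sum.inr z)) = c := fun z => hg (Sum.inr z)
    rintro w ((rfl | rfl | rfl | hw) | ⟨d, rfl⟩)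
    · simp [hl, he']
    · simp [hl, he]
    · cases flip <;> simp [hr, hx, hx']
    · rw [Set.mem_singleton_iff] at hw
      subst hw
      cases flip <;> simp [hr, hx, hx']
    · simp [hl, hr]

end Slot

end Run7.h161.KN
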