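import Pool.Agent.Run7.h161.KN.Glue
import Pool.Agent.Y479.LS.Tangle

set_option autoImplicit false

/-!
# Rational and alternating tangles on the axis
-/

namespace Run7.h161.KN

open Pool.Agent.Y479.LS Pool.Agent.Y479.LS.Aut

/-- Two chains with the same start `N 0` and the same end `N (n + 1)`. -/
structure Ends2 {G : Type*} [Group G] (n : ℕ) (b : ℕ → ℕ) (N E N' E' : ℕ → G) : Prop where
  c : Chain b N E
  c' : Chain b N' E'
  start : N' 0 = N 0
  fin : N' (n + 1) = N (n + 1)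

theorem Ends2.map {G H : Type*} [Group G] [Group H] {n : ℕ} {b : ℕ → ℕ}
    {N E N' E' : ℕ → G} (hR : Ends2 n b N E N' E') (f : G →* H) :
    Ends2 n b (fun i => f (N i)) (fun i => f (E i)) (fun i => f (N' i)) (fun i => f (E' i)) :=
  ⟨hR.c.map f, hR.c'.map f, congrArg f hR.start, congrArg f hR.fin⟩

theorem Ends2.swap {G : Type*} [Group G] {n : ℕ} {b : ℕ → ℕ}
    {N E N' E' : ℕ → G} (hR : Ends2 n b N E N' E') : Ends2 n b N' E' N E :=
  ⟨hR.c', hR.c, hR.start.symm, hR.fin.symm⟩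

section complete
variable {X : Type*} [CompleteLinearOrder X] {n : ℕ} {b : ℕ → ℕ} {N E N' E' : ℕ → Aut X}

theorem Ends2.not_up_aux (hb : 0 < b 0) (hR : Ends2 n b N E N' E')
    (hctl : ∀ y, ((E n)⁻¹ * E' n) y = y → N (n + 1) y = y) {x : X} (hN0 : N 0 x = x)
    (hE' : E' 0 x = E 0 x) (hx : x < E 0 x) (hv : x < ((E n)⁻¹ * E' n) x) : False := by
  have hall := hR.c.all_up hb hN0 hx
  have hNx : ∀ i, 1 ≤ i → (N i)⁻¹ x ≤ x := by
    intro i hi
    obtain ⟨j, rfl⟩ : ∃ j, i = j + 1 := ⟨i - 1, by omega⟩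
    rw [← le_iff (N (j + 1)), self_inv]
    exact (hall j).2.le
  set J : X → Prop := fun t => t ≤ x ∧ ∀ s, t ≤ s → s ≤ x → s < N (n + 1) s with hJ
  have hfinal := compare hR.c hR.c' hR.fin hNx J ?_ ?_ ?_ n 0 (by omega) x ?_ le_rfl hx
  · rw [hE'] at hfinal
    exact lt_irrefl _ hfinal
  · rintro t s ⟨h1, h3⟩ h4 h5
    have h4' : t ≤ N (n + 1) s := by
      rw [← le_iff (N (n + 1))⁻¹, inv_self]; exact h4
    refine ⟨h5, ?_⟩
    intro s' h6 h7
    rcases le_or_gt t s' with h8 | h8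
    · exact h3 s' h8 h7
    · exact h8.trans_le (h4'.trans ((le_iff _).mpr h6))
  · rintro t ⟨h1, h3⟩
    rw [← le_iff (N (n + 1)), self_inv]
    exact (h3 t le_rfl h1).le
  · rintro t ⟨h1, h3⟩ _
    have hvt : t < ((E n)⁻¹ * E' n) t := by
      by_contra hc
      rw [not_lt] at hc
      obtain ⟨y, y1, y2, y3⟩ := Pool.Agent.W705.Borr.ivt (((E n)⁻¹ * E' n : Aut X) : X ≃o X) h1 hc hv
      exact absurd (h3 y y1 y2.le) (not_lt.mpr (hctl y y3).le)
    have h1 := (lt_iff (E n)).mpr hvt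
    rw [mul_apply, self_inv] at h1
    exact h1
  · refine ⟨le_rfl, ?_⟩
    intro s h1 h2
    obtain rfl : s = x := le_antisymm h2 h1
    exact (hall n).2

theorem Ends2.not_up (hb : 0 < b 0) (hR : Ends2 n b N E N' E')
    (hctl : ∀ y, ((E n)⁻¹ * E' n) y = y → N (n + 1) y = y) {x : X} (hN0 : N 0 x = x)
    (hE' : E' 0 x = E 0 x) : ¬ x < E 0 x := by
  intro hx
  rcases lt_trichotomy (((E n)⁻¹ * E' n) x) x with h1 | h1 | h1
  · have h3 : ∀ y, ((E' n)⁻¹ * E n) y = (((E n)⁻¹ * E' n)⁻¹) y := by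
      intro y; rw [mul_inv_rev, inv_inv]
    refine hR.swap.not_up_aux hb (x := x) ?_ ?_ hE'.symm ?_ ?_
    · intro y hy
      rw [hR.fin]
      refine hctl y ?_
      rw [h3] at hy
      rw [← inj ((E n)⁻¹ * E' n)⁻¹, inv_self, hy]
    · rw [hR.start]; exact hN0
    · rw [hE']; exact hx
    · rw [h3, ← lt_iff ((E n)⁻¹ * E' n), self_inv]
      exact h1
  · have h4 := (hR.c.all_up hb hN0 hx n).2
    rw [hctl x h1] at h4
    exact lt_irrefl _ h4
  · exact hR.not_up_aux hb hctl hN0 hE' hx h1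

theorem Ends2.fix_E (hb : 0 < b 0) (hR : Ends2 n b N E N' E')
    (hctl : ∀ y, ((E n)⁻¹ * E' n) y = y → N (n + 1) y = y) {x : X} (hN0 : N 0 x = x)
    (hE' : E' 0 x = E 0 x) : E 0 x = x := by
  rcases lt_trichotomy (E 0 x) x with h1 | h1 | h1
  · exfalso
    refine Ends2.not_up (X := Xᵒᵈ) hb (hR.map Aut.dual) ?_ (x := OrderDual.toDual x) ?_ ?_ ?_
    · intro y hy
      exact hctl (OrderDual.ofDual y) hy
    · rw [dual_apply, hN0]
    · rw [dual_apply, dual_apply, hE']
    · rw [dual_apply]; exact h1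
  · exact h1
  · exact absurd h1 (hR.not_up hb hctl hN0 hE')

end complete

theorem Ends2.not_all {X : Type*} [LinearOrder X] {n : ℕ} {b : ℕ → ℕ} {N E N' E' : ℕ → Aut X}
    (hb : 0 < b 0) (hR : Ends2 n b N E N' E') [Nonempty X]
    (hu : ∀ x, x < ((E 0)⁻¹ * E' 0) x) : False := by
  have hB : ∀ x, E 0 x < E' 0 x := by
    intro x
    have : E 0 (((E 0)⁻¹ * E' 0) x) = E' 0 x := by rw [mul_apply, self_inv]
    rw [← this, lt_iff]
    exact hu x
  have hall : ∀ i, (∀ x, E i x < E' i x) ∧ ∀ x, N (i + 1) x < N' (i + 1) x := by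
    intro i
    induction i with
    | zero =>
      refine ⟨hB, fun x => ?_⟩
      rw [hR.c.N_succ 0, hR.c'.N_succ 0, hR.start, mul_apply, mul_apply, lt_iff]
      exact pow_mono_lt hB _ hb x
    | succ i ih =>
      have h1 : ∀ x, E (i + 1) x < E' (i + 1) x := by
        intro x
        rw [hR.c.E_succ i, hR.c'.E_succ i, mul_apply, mul_apply]
        exact (ih.1 _).trans ((lt_iff _).mpr (ih.2 x))
      refine ⟨h1, fun x => ?_⟩
      rw [hR.c.N_succ (i + 1), hR.c'.N_succ (i + 1), mul_apply, mul_apply]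
      exact (ih.2 _).trans_le ((le_iff _).mpr (pow_mono h1 _ x))
  obtain ⟨x⟩ := ‹Nonempty X›
  have h1 := (hall n).2 x
  rw [hR.fin] at h1
  exact lt_irrefl _ h1

/-- The general form of the theorem. -/
theorem sym_triv {Γ : Type*} [Group Γ] {n : ℕ} {b : ℕ → ℕ} {N E N' E' : ℕ → Γ} (hb : 0 < b 0)
    (hR : Ends2 n b N E N' E')
    (h1 : ∀ (X : Type) [CompleteLinearOrder X] (φ : Γ →* Aut X) (x : X),
      φ (E' 0) x = φ (E 0) x → φ (N 0) x = x)
    (h2 : ∀ (X : Type) [CompleteLinearOrder X] (φ : Γ →* Aut X) (x : X),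
      φ (E' n) x = φ (E n) x → φ (N (n + 1)) x = x)
    (h3 : ∀ (X : Type) [CompleteLinearOrder X] (φ : Γ →* Aut X) (x : X),
      φ (E 0) x = x → φ (E' 0) x = x → ∀ γ, φ γ x = x)
    (H : Type) [Group H] (hH : LeftOrderable H) (f : Γ →* H) (c : Γ) : f c = 1 := by
  refine hom_trivial ((E 0)⁻¹ * E' 0) ?_ ?_ H hH f c
  · intro X _ φ p hp c
    set ψ : Γ →* Aut (LowerSet X) := (up X).comp φ with hψ
    set p' : LowerSet X := LowerSet.Iic p with hp'
    have hup : ψ ((E 0)⁻¹ * E' 0) p' = p' := by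
      rw [hψ, MonoidHom.comp_apply, hp', up_Iic, hp]
    have hE : ψ (E' 0) p' = ψ (E 0) p' := by
      have h4 : ψ (E 0) (ψ ((E 0)⁻¹ * E' 0) p') = ψ (E' 0) p' := by
        rw [← mul_apply, ← map_mul, mul_inv_cancel_left]
      rw [← h4, hup]
    have hN0 := h1 _ ψ p' hE
    have hctl : ∀ y, ((ψ (E n))⁻¹ * ψ (E' n)) y = y → ψ (N (n + 1)) y = y := by
      intro y hy
      refine h2 _ ψ y ?_
      have h4 : ψ (E n) (((ψ (E n))⁻¹ * ψ (E' n)) y) = ψ (E' n) y := by
        rw [mul_apply, self_inv]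
      rw [← h4, hy]
    have h5 : ψ (E 0) p' = p' := (hR.map ψ).fix_E hb hctl hN0 hE
    have h6 := h3 _ ψ p' h5 (hE.trans h5) c
    rw [hψ, MonoidHom.comp_apply, hp', up_Iic] at h6
    exact LowerSet.Iic_injective h6
  · intro X _ _ φ hφ
    refine (hR.map φ).not_all hb ?_
    simpa only [map_mul, map_inv] using hφ

/-- A rational tangle (given by `s`, `r`) or an alternating tangle (given by a tangle of positive
sign, or, for `flip = true`, by the reflection of such a tangle). -/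
inductive Slot
  | rational (s : ℕ) (r : ℤ)
  | tangle (T : Tangle) (flip : Bool)

namespace Slot

/-- the excluded rational tangle has `s = 0` -/
def Ok : Slot → Prop
  | rational s _ => 0 < s
  | tangle _ _ => True

/-- The core of the solid torus, respectively the regions of the tangle. -/
def Gen : Slot → Type
  | rational _ _ => Unit
  | tangle T _ => T.W ⊕ T.B

/-- The relators of a tangle between the white regions `x`, `x'` (left and right) and the black
regions `e`, `e'` (above and below). -/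
def white {F : Type} [Group F] : (S : Slot) → (S.Gen → F) → F → F → F → F → Set F
  | rational s r, g, x, x', e, e' => {x⁻¹ * x' * (g () ^ s)⁻¹, e⁻¹ * e' * (g () ^ r)⁻¹}
  | tangle T flip, g, x, x', e, e' =>
    {g (Sum.inl T.west) * x⁻¹, g (Sum.inl T.east) * x'⁻¹,
      g (Sum.inr T.north) * (if flip then e' else e)⁻¹,
      g (Sum.inr T.south) * (if flip then e else e')⁻¹} ∪
    Set.range fun c => (g (Sum.inr (T.b₂ c)))⁻¹ * g (Sum.inr (T.b₁ c)) *
      ((g (Sum.inl (T.w₁ c)))⁻¹ * g (Sum.inl (T.w₂ c)))⁻¹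

/-- The relators of a tangle between the black regions `x`, `x'` (left and right) and the white
regions `e`, `e'` (above and below). -/
def black {F : Type} [Group F] : (S : Slot) → (S.Gen → F) → F → F → F → F → Set F
  | rational s r, g, x, x', e, e' => {x⁻¹ * x' * (g () ^ s)⁻¹, e⁻¹ * e' * (g () ^ r)⁻¹}
  | tangle T flip, g, x, x', e, e' =>
    {g (Sum.inl T.west) * e'⁻¹, g (Sum.inl T.east) * e⁻¹,
      g (Sum.inr T.north) * (if flip then x' else x)⁻¹,
      g (Sum.inr T.south) * (if flip then x else x')⁻¹} ∪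
    Set.range fun c => (g (Sum.inr (T.b₂ c)))⁻¹ * g (Sum.inr (T.b₁ c)) *
      ((g (Sum.inl (T.w₁ c)))⁻¹ * g (Sum.inl (T.w₂ c)))⁻¹

variable {F : Type} [Group F] {X : Type} [LinearOrder X]

theorem rational_fix {s : ℕ} {r : ℤ} (hs : 0 < s) {g x x' e e' : Aut X}
    (h1 : x⁻¹ * x' * (g ^ s)⁻¹ = 1) (h2 : e⁻¹ * e' * (g ^ r)⁻¹ = 1) {p : X} (hp : x' p = x p) :
    e' p = e p ∧ g p = p := by
  rw [mul_inv_eq_one] at h1 h2
  have h3 : g p = p := by
    refine root_fix hs ?_
    rw [← h1, mul_apply, hp, inv_self]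
  refine ⟨?_, h3⟩
  rw [← inj e⁻¹, inv_self, ← mul_apply, h2]
  exact zpow_fix h3 r

theorem tangle_rep {T : Tangle} {g : T.W ⊕ T.B → F} (Φ : F →* Aut X)
    (h : ∀ c, Φ ((g (Sum.inr (T.b₂ c)))⁻¹ * g (Sum.inr (T.b₁ c)) *
      ((g (Sum.inl (T.w₁ c)))⁻¹ * g (Sum.inl (T.w₂ c)))⁻¹) = 1) :
    T.Rep (fun w => Φ (g (Sum.inl w))) (fun b => Φ (g (Sum.inr b))) := by
  intro c
  have h1 := h c
  rw [map_mul, map_inv, mul_inv_eq_one, map_mul, map_mul, map_inv, map_inv] at h1
  exact h1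

/-- White poles that agree at a point: everything agrees. -/
theorem tangle_fix_white {T : Tangle} {w : T.W → Aut X} {b : T.B → Aut X} (h : T.Rep w b) {p : X}
    (hp : w T.west p = w T.east p) :
    (∀ z, w z p = w T.west p) ∧ (∀ z, b z p = b T.north p) := by
  have := T.finW
  have := T.finB
  obtain ⟨h1, h2⟩ := T.white.eq_of_eq h.white p hp
  exact ⟨h1, (T.black.eq_of_eq h.black p h2.symm).1⟩

theorem tangle_fix_black {T : Tangle} {w : T.W → Aut X} {b : T.B → Aut X} (h : T.Rep w b) {p : X}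
    (hp : b T.north p = b T.south p) :
    (∀ z, w z p = w T.west p) ∧ (∀ z, b z p = b T.north p) := by
  have := T.finW
  have := T.finB
  obtain ⟨h1, h2⟩ := T.black.eq_of_eq h.black p hp
  exact ⟨(T.white.eq_of_eq h.white p h2.symm).1, h1⟩

/-- If `x`, `x'` agree at `p` then so do `e`, `e'`; if moreover `x p = e p = p` then all
generators of the slot fix `p`. -/
theorem white_fix {S : Slot} (hS : S.Ok) {g : S.Gen → F} {x x' e e' : F} (Φ : F →* Aut X)
    (h : ∀ w ∈ S.white g x x' e e', Φ w = 1) {p : X} (hp : Φ x' p = Φ x p) :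
    Φ e' p = Φ e p ∧ (Φ x p = p → Φ e p = p → ∀ z, Φ (g z) p = p) := by
  cases S with
  | rational s r =>
    have h1 := h (x⁻¹ * x' * (g () ^ s)⁻¹) (Or.inl rfl)
    have h2 := h (e⁻¹ * e' * (g () ^ r)⁻¹) (Or.inr rfl)
    rw [map_mul, map_mul, map_inv, map_inv, map_pow] at h1
    rw [map_mul, map_mul, map_inv, map_inv, map_zpow] at h2
    obtain ⟨h3, h4⟩ := rational_fix hS h1 h2 hp
    exact ⟨h3, fun _ _ z => h4⟩
  | tangle T flip =>
    have hw : Φ (g (Sum.inl T.west)) = Φ x := by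
      have := h (g (Sum.inl T.west) * x⁻¹) (Or.inl (Or.inl rfl))
      rwa [map_mul, map_inv, mul_inv_eq_one] at this
    have he : Φ (g (Sum.inl T.east)) = Φ x' := by
      have := h (g (Sum.inl T.east) * x'⁻¹) (Or.inl (Or.inr (Or.inl rfl)))
      rwa [map_mul, map_inv, mul_inv_eq_one] at this
    have hn : Φ (g (Sum.inr T.north)) = Φ (if flip then e' else e) := by
      have := h (g (Sum.inr T.north) * (if flip then e' else e)⁻¹)
        (Or.inl (Or.inr (Or.inr (Or.inl rfl))))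
      rwa [map_mul, map_inv, mul_inv_eq_one] at this
    have hs : Φ (g (Sum.inr T.south)) = Φ (if flip then e else e') := by
      have := h (g (Sum.inr T.south) * (if flip then e else e')⁻¹)
        (Or.inl (Or.inr (Or.inr (Or.inr rfl))))
      rwa [map_mul, map_inv, mul_inv_eq_one] at this
    have hrep := tangle_rep Φ (fun c => h _ (Or.inr ⟨c, rfl⟩))
    obtain ⟨h1, h2⟩ := tangle_fix_white hrep (p := p) (by
      show Φ (g (Sum.inl T.west)) p = Φ (g (Sum.inl T.east)) p
      rw [hw, he, hp])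
    have h3 : Φ (g (Sum.inr T.south)) p = Φ (g (Sum.inr T.north)) p := h2 T.south
    have h4 : Φ e' p = Φ e p := by
      rw [hn, hs] at h3
      cases flip
      · exact h3
      · exact h3.symm
    refine ⟨h4, fun h5 h6 z => ?_⟩
    rcases z with z | z
    · have h7 : Φ (g (Sum.inl z)) p = Φ (g (Sum.inl T.west)) p := h1 z
      rw [h7, hw, h5]
    · have h7 : Φ (g (Sum.inr z)) p = Φ (g (Sum.inr T.north)) p := h2 z
      rw [h7, hn]
      cases flip
      · exact h6
      · exact h4.trans h6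

theorem black_fix {S : Slot} (hS : S.Ok) {g : S.Gen → F} {x x' e e' : F} (Φ : F →* Aut X)
    (h : ∀ w ∈ S.black g x x' e e', Φ w = 1) {p : X} (hp : Φ x' p = Φ x p) :
    Φ e' p = Φ e p ∧ (Φ x p = p → Φ e p = p → ∀ z, Φ (g z) p = p) := by
  cases S with
  | rational s r =>
    have h1 := h (x⁻¹ * x' * (g () ^ s)⁻¹) (Or.inl rfl)
    have h2 := h (e⁻¹ * e' * (g () ^ r)⁻¹) (Or.inr rfl)
    rw [map_mul, map_mul, map_inv, map_inv, map_pow] at h1
    rw [map_mul, map_mul, map_inv, map_inv, map_zpow] at h2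
    obtain ⟨h3, h4⟩ := rational_fix hS h1 h2 hp
    exact ⟨h3, fun _ _ z => h4⟩
  | tangle T flip =>
    have hw : Φ (g (Sum.inl T.west)) = Φ e' := by
      have := h (g (Sum.inl T.west) * e'⁻¹) (Or.inl (Or.inl rfl))
      rwa [map_mul, map_inv, mul_inv_eq_one] at this
    have he : Φ (g (Sum.inl T.east)) = Φ e := by
      have := h (g (Sum.inl T.east) * e⁻¹) (Or.inl (Or.inr (Or.inl rfl)))
      rwa [map_mul, map_inv, mul_inv_eq_one] at this
    have hn : Φ (g (Sum.inr T.north)) = Φ (if flip then x' else x) := by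
      have := h (g (Sum.inr T.north) * (if flip then x' else x)⁻¹)
        (Or.inl (Or.inr (Or.inr (Or.inl rfl))))
      rwa [map_mul, map_inv, mul_inv_eq_one] at this
    have hs : Φ (g (Sum.inr T.south)) = Φ (if flip then x else x') := by
      have := h (g (Sum.inr T.south) * (if flip then x else x')⁻¹)
        (Or.inl (Or.inr (Or.inr (Or.inr rfl))))
      rwa [map_mul, map_inv, mul_inv_eq_one] at this
    have hrep := tangle_rep Φ (fun c => h _ (Or.inr ⟨c, rfl⟩))
    obtain ⟨h1, h2⟩ := tangle_fix_black hrep (p := p) (by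
      show Φ (g (Sum.inr T.north)) p = Φ (g (Sum.inr T.south)) p
      rw [hn, hs]
      cases flip
      · exact hp.symm
      · exact hp)
    have h4 : Φ e' p = Φ e p := by
      have h3 : Φ (g (Sum.inl T.east)) p = Φ (g (Sum.inl T.west)) p := h1 T.east
      rw [he, hw] at h3
      exact h3.symm
    refine ⟨h4, fun h5 h6 z => ?_⟩
    rcases z with z | z
    · have h7 : Φ (g (Sum.inl z)) p = Φ (g (Sum.inl T.west)) p := h1 z
      rw [h7, hw]; exact h4.trans h6
    · have h7 : Φ (g (Sum.inr z)) p = Φ (g (Sum.inr T.north)) p := h2 z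
      rw [h7, hn]
      cases flip
      · exact h5
      · exact hp.trans h5

end Slot

end Run7.h161.KN
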